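import Pool.Agent.MP_151d89_pr.H30.Spec

/-!
Without single site moves the measure is a point mass.
-/

set_option autoImplicit false
open MeasureTheory Filter Topology

namespace Pool.Agent.MP_151d89_pr.H30
open Pool.Agent.MP_151d89_pr.H82 Pool.Agent.MP_151d89_pr.H33 Pool.Agent.MP_151d89_pr.H67
open Classical

namespace Dirac

theorem av_of {f : Conf} {x : ℤ × ℤ} {s : ℤ}
    (h : ∀ y : ℤ × ℤ, |x.1 - y.1| + |x.2 - y.2| = 1 → f y = f x + s) : Av s (true, x, 0) f := by
  refine ⟨fun t ht => ?_, h _ (by simp [pt, dir]), ?_, fun t ht => ?_⟩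
  · obtain rfl : t = 0 := Nat.le_zero.1 ht
    simp [pt]
  · simpa using h (pt true x 1) (by simp [pt, dir])
  · obtain rfl : t = 0 := Nat.le_zero.1 ht
    constructor
    · simpa [pt] using h (x + dir false) (by simp [dir])
    · simpa [pt] using h (x - dir false) (by simp [dir])

theorem rigid {f a : Conf} {Λ : Finset (ℤ × ℤ)} (hf : Hom f)
    (h1 : ∀ x, ¬ Av (-1) (true, x, 0) f) (h2 : ∀ x, ¬ Av 1 (true, x, 0) f) (ha : a ∈ FS Λ f) :
    a = f := by
  obtain ⟨ha1, ha2⟩ := mem_FS.1 ha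
  obtain ⟨z, hz⟩ := Infinite.exists_notMem_finset Λ
  have hp : ∀ x, (a x - f x) % 2 = 0 := par ha1 hf (z := z) (by rw [ha2 z hz]; simp)
  have k1 : ∀ x, ¬ a x < f x := by
    intro x0 hx0
    have m : ∀ y, a y < f y → y ∈ Λ.filter fun y => a y < f y := fun y hy =>
      Finset.mem_filter.2 ⟨by_contra fun h => hy.ne (ha2 y h), hy⟩
    obtain ⟨x, hx, hmax⟩ := Finset.exists_max_image _ f ⟨x0, m x0 hx0⟩
    have hx' := (Finset.mem_filter.1 hx).2
    refine h1 x (av_of fun y hy => ?_)
    have e1 := hf x y hy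
    have e2 := ha1 x y hy
    have e3 := hp x
    rw [abs_eq (by norm_num)] at e1 e2
    by_cases h : a y < f y
    · have := hmax y (m y h)
      omega
    · omega
  have k2 : ∀ x, ¬ f x < a x := by
    intro x0 hx0
    have m : ∀ y, f y < a y → y ∈ Λ.filter fun y => f y < a y := fun y hy =>
      Finset.mem_filter.2 ⟨by_contra fun h => hy.ne' (ha2 y h), hy⟩
    obtain ⟨x, hx, hmin⟩ := Finset.exists_min_image _ f ⟨x0, m x0 hx0⟩
    have hx' := (Finset.mem_filter.1 hx).2
    refine h2 x (av_of fun y hy => ?_)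
    have e1 := hf x y hy
    have e2 := ha1 x y hy
    have e3 := hp x
    rw [abs_eq (by norm_num)] at e1 e2
    by_cases h : f y < a y
    · have := hmin y (m y h)
      omega
    · omega
  funext x
  exact le_antisymm (not_lt.1 (k2 x)) (not_lt.1 (k1 x))

end Dirac

open Dirac in
theorem dirac_row : DiracStmt := by
  intro μ hμ hT h1 h2
  have := hμ.1
  have g1 : ∀ᵐ f ∂μ, ∀ x, ¬ Av (-1) (true, x, 0) f :=
    ae_all_iff.2 fun x => measure_eq_zero_iff_ae_notMem.1 (h1 x)
  have g2 : ∀ᵐ f ∂μ, ∀ x, ¬ Av 1 (true, x, 0) f :=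
    ae_all_iff.2 fun x => measure_eq_zero_iff_ae_notMem.1 (h2 x)
  have key : ∀ᵐ f ∂μ, ∀ (x : ℤ × ℤ) (k : ℤ), (if f x = k then (1 : ℝ) else 0) =
      ∫ g, (if g x = k then (1 : ℝ) else 0) ∂μ := by
    refine ae_all_iff.2 fun x => ae_all_iff.2 fun k => ?_
    have hm : Measurable fun g : Conf => if g x = k then (1 : ℝ) else 0 :=
      Measurable.ite (measurableSet_eq_fun (measurable_pi_apply x) measurable_const)
        measurable_const measurable_const
    obtain ⟨ns, h⟩ := av_tendsto hμ hT hm (B := 1) fun a => by split_ifs <;> simp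
    filter_upwards [h, g1, g2, hμ.2.1] with f e e1 e2 hf
    have e3 : ∀ i, av (box 0 (ns i)) (fun g : Conf => if g x = k then (1 : ℝ) else 0) f =
        if f x = k then (1 : ℝ) else 0 := fun i => by
      rw [← av_const (box 0 (ns i)) (if f x = k then (1 : ℝ) else 0) hf]
      exact av_eq fun a ha => by rw [rigid hf e1 e2 ha]
    simp only [e3] at e
    exact tendsto_nhds_unique tendsto_const_nhds e
  obtain ⟨f₀, h0⟩ := key.exists
  refine ⟨f₀, ?_⟩
  filter_upwards [key] with f hf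
  funext x
  have e := (hf x (f₀ x)).trans (h0 x (f₀ x)).symm
  rw [if_pos rfl] at e
  by_contra h
  rw [if_neg h] at e
  exact zero_ne_one e

end Pool.Agent.MP_151d89_pr.H30
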