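import Pool.Agent.MP_151d89_pr.H30.Spec

/-!
The total drift of the towers is a null Lagrangian.
-/

set_option autoImplicit false

namespace Pool.Agent.MP_151d89_pr.H30
open Pool.Agent.MP_151d89_pr.H82 Pool.Agent.MP_151d89_pr.H67
open Classical

namespace NullP

theorem nrm_eq (x : ℤ × ℤ) : nrm x = max (max x.1 (-x.1)) (max x.2 (-x.2)) := by
  rw [nrm, abs_eq_max_neg, abs_eq_max_neg]

theorem pt_true (x : ℤ × ℤ) (t : ℤ) : pt true x t = (x.1 + t, x.2) := by
  ext <;> simp [pt, dir]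

theorem pt_false (x : ℤ × ℤ) (t : ℤ) : pt false x t = (x.1, x.2 + t) := by
  ext <;> simp [pt, dir]

theorem pt_zero (b : Bool) (x : ℤ × ℤ) : pt b x 0 = x := by simp [pt]

theorem pt_pt (b : Bool) (x : ℤ × ℤ) (s t : ℤ) : pt b (pt b x s) t = pt b x (s + t) := by
  simp [pt, add_smul, add_assoc]

theorem pt_neg (b : Bool) (x : ℤ × ℤ) (s t : ℤ) : pt b (-pt b x s) t = -pt b x (s - t) := by
  simp only [pt, sub_smul]
  abel

theorem nrm_neg (x : ℤ × ℤ) : nrm (-x) = nrm x := by simp [nrm]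

theorem mem_box0 {y : ℤ × ℤ} {n : ℕ} : y ∈ box 0 n ↔ nrm y ≤ n := by
  rw [mem_box, nrm_eq]
  simp only [Prod.fst_zero, Prod.snd_zero]
  omega

theorem nrm_add (x v : ℤ × ℤ) : nrm (x + v) ≤ nrm x + nrm v := by
  simp only [nrm_eq, Prod.fst_add, Prod.snd_add]
  omega

theorem nrm_pt (b : Bool) (x : ℤ × ℤ) (t : ℤ) :
    nrm (pt b x t) ≤ nrm x + max t (-t) ∧ nrm x ≤ nrm (pt b x t) + max t (-t) := by
  cases b <;> simp only [pt_true, pt_false, nrm_eq] <;> omega

theorem nrm_dir (b : Bool) (y : ℤ × ℤ) :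
    nrm y ≤ nrm (y + dir b) + 1 ∧ nrm y ≤ nrm (y - dir b) + 1 := by
  cases b <;> simp only [dir, nrm_eq, Prod.fst_add, Prod.snd_add, Prod.fst_sub, Prod.snd_sub] <;>
    omega

theorem step {f : Conf} (hf : Hom f) (b : Bool) (y : ℤ × ℤ) :
    f (y + dir b) = f y + 1 ∨ f (y + dir b) = f y - 1 := by
  have := hf (y + dir b) y (by cases b <;> simp [dir])
  rw [abs_eq (by norm_num)] at this
  omega

theorem pt_succ (b : Bool) (x : ℤ × ℤ) (t : ℤ) : pt b x (t + 1) = pt b x t + dir b := by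
  simp [pt, add_smul, add_assoc]

theorem mem_idx {r K : ℕ} {m : Mv} : m ∈ idx r K ↔ nrm m.2.1 ≤ r + 9 * K ∧
    m.2.2 < 2 * r + 2 * K + 1 ∧ (m.1 = true ∨ 1 ≤ m.2.2) ∧ nrm (pt m.1 m.2.1 m.2.2) ≤ r + 9 * K ∧
      (m.2.2 ≤ K ∨ (nrm m.2.1 ≤ r + K ∧ nrm (pt m.1 m.2.1 m.2.2) ≤ r + K)) := by
  simp only [idx, Finset.mem_filter, Finset.mem_product, Finset.mem_univ, true_and, mem_box0,
    Finset.mem_range, and_assoc]
  push_cast
  rfl

theorem run_sub {b : Bool} {x : ℤ × ℤ} {l u K : ℕ} {f : Conf} (h : Run b x l f)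
    (hu : u + K ≤ l) : Run b (pt b x u) K f := fun t ht => by
  have h1 := h (u + t) (by omega)
  have h2 := h u (by omega)
  push_cast at h1
  rw [pt_pt, h1, h2]
  ring

/-- a run that is not bad is short or stays in the small box -/
theorem run_ok {r K : ℕ} (hK : 1 ≤ K) {f : Conf} (hb : ¬ Bad r K f) {b : Bool} {x : ℤ × ℤ}
    (hx : nrm x ≤ r + 8 * K) {l : ℕ} (h : Run b x l f) :
    l ≤ K ∨ (nrm x ≤ r + K ∧ nrm (pt b x l) ≤ r + K) := by
  by_contra hc
  have hl : K < l := by omega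
  by_cases h1 : nrm x ≤ r + K
  · have h2 : (r : ℤ) + K < nrm (pt b x l) := by omega
    obtain ⟨u, hu, ha⟩ : ∃ u : ℕ, u + K ≤ l ∧ Ann r K b (pt b x u) K := by
      cases b
      · refine ⟨(r + 1 - x.2).toNat, ?_, fun t ht => ?_⟩
        · simp only [pt_false, nrm_eq] at h1 h2
          omega
        · simp only [pt_false, nrm_eq] at h1 h2 ⊢
          omega
      · refine ⟨(r + 1 - x.1).toNat, ?_, fun t ht => ?_⟩
        · simp only [pt_true, nrm_eq] at h1 h2
          omega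
        · simp only [pt_true, nrm_eq] at h1 h2 ⊢
          omega
    exact hb ⟨b, _, ha, run_sub h hu⟩
  · refine hb ⟨b, x, fun t ht => ?_, fun t ht => h t (by omega)⟩
    have := nrm_pt b x t
    omega

theorem len_le {r K : ℕ} {b : Bool} {x : ℤ × ℤ} {l : ℕ}
    (h : l ≤ K ∨ (nrm x ≤ r + K ∧ nrm (pt b x l) ≤ r + K)) : l < 2 * r + 2 * K + 1 := by
  cases b <;> simp only [pt_true, pt_false, nrm_eq] at h <;> omega

theorem side {f : Conf} (hf : Hom f) {b : Bool} {x w : ℤ × ℤ} {l : ℕ} (h : Run b x l f)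
    (hw : ∀ y, f (y + w) = f y + 1 ∨ f (y + w) = f y - 1) (h0 : f (x + w) = f x - 1) :
    ∀ t : ℕ, t ≤ l → f (pt b x t + w) = f x + t + -1 := by
  intro t
  induction t with
  | zero => intro _; simp [pt_zero, h0]; ring
  | succ t ih =>
    intro ht
    have h1 := ih (by omega)
    have h2 := h (t + 1) ht
    have h3 := hw (pt b x ((t + 1 : ℕ) : ℤ))
    have h4 := step hf b (pt b x t + w)
    rw [add_right_comm, ← pt_succ] at h4
    push_cast at h2 h3 ⊢
    omega

theorem step' {f : Conf} (hf : Hom f) (b : Bool) (y : ℤ × ℤ) :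
    f (y + -dir b) = f y + 1 ∨ f (y + -dir b) = f y - 1 := by
  have := step hf b (y + -dir b)
  rw [neg_add_cancel_right] at this
  omega

theorem exists_av {r K : ℕ} (hK : 1 ≤ K) {f : Conf} (hf : Hom f) (hb : ¬ Bad r K f) {b : Bool}
    {x : ℤ × ℤ} (hx : nrm x ≤ r + 8 * K) (h1 : f (x - dir b) = f x - 1)
    (h2 : f (x + dir (!b)) = f x - 1) (h3 : f (x - dir (!b)) = f x - 1)
    (h4 : b = true ∨ f (x + dir b) = f x + 1) :
    ∃ l, (b, x, l) ∈ idx r K ∧ Av (-1) (b, x, l) f := by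
  have hex : ∃ n : ℕ, ¬ Run b x (n + 1) f :=
    ⟨2 * r + 2 * K, fun h => lt_irrefl _ (len_le (run_ok hK hb hx h))⟩
  have hrun : ∀ n : ℕ, n ≤ Nat.find hex → Run b x n f := by
    intro n hn
    cases n with
    | zero => intro t ht; obtain rfl : t = 0 := by omega
              simp [pt_zero]
    | succ n => exact not_not.1 (Nat.find_min hex (by omega))
  have hl := hrun _ le_rfl
  have hend : f (pt b x ((Nat.find hex : ℕ) + 1)) = f x + (Nat.find hex : ℕ) + -1 := by
    have a1 := step hf b (pt b x (Nat.find hex : ℕ))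
    rw [← pt_succ, hl _ le_rfl] at a1
    rcases a1 with a1 | a1
    · refine absurd (fun t ht => ?_) (Nat.find_spec hex)
      rcases Nat.lt_or_ge (Nat.find hex) t with a2 | a2
      · obtain rfl : t = Nat.find hex + 1 := by omega
        push_cast
        omega
      · exact hl t a2
    · omega
  have hok := run_ok hK hb hx hl
  refine ⟨Nat.find hex, mem_idx.2 ⟨by dsimp only; omega, len_le hok, ?_, ?_, hok⟩, hl, ?_, hend,
    fun t ht => ⟨side hf hl (step hf _) h2 t ht, ?_⟩⟩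
  · refine h4.imp id fun h4 => ?_
    by_contra hc
    have h0 : Nat.find hex = 0 := by dsimp only at hc; omega
    rw [h0, pt_succ] at hend
    simp only [Nat.cast_zero, pt_zero] at hend
    omega
  · have := nrm_pt b x (Nat.find hex : ℕ)
    dsimp only
    omega
  · have : pt b x (-1) = x - dir b := by simp [pt, sub_eq_add_neg]
    dsimp only
    rw [this, h1]
    ring
  · rw [sub_eq_add_neg] at h3 ⊢
    exact side hf hl (step' hf _) h3 t ht

/-- both lower neighbours are lower -/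
def WS (f : Conf) (x : ℤ × ℤ) : Prop := f (x - dir true) = f x - 1 ∧ f (x - dir false) = f x - 1

/-- both upper neighbours are higher -/
def EN (f : Conf) (x : ℤ × ℤ) : Prop := f (x + dir true) = f x + 1 ∧ f (x + dir false) = f x + 1

theorem av_facts {b : Bool} {x : ℤ × ℤ} {l : ℕ} {f : Conf} (h : Av (-1) (b, x, l) f) :
    f (x - dir b) = f x - 1 ∧ f (x + dir (!b)) = f x - 1 ∧ f (x - dir (!b)) = f x - 1 ∧
      (1 ≤ l → f (x + dir b) = f x + 1) := by
  obtain ⟨h1, h2, -, h4⟩ := h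
  have a1 : pt b x (-1) = x - dir b := by simp [pt, sub_eq_add_neg]
  have a2 := h4 0 (Nat.zero_le _)
  simp only [Nat.cast_zero, pt_zero, a1] at a2 h2
  refine ⟨by omega, by omega, by omega, fun hl => ?_⟩
  have := h1 1 hl
  simpa [pt] using this

theorem av_len {b : Bool} {x : ℤ × ℤ} {l l' : ℕ} {f : Conf} (h : Av (-1) (b, x, l) f)
    (h' : Av (-1) (b, x, l') f) : l' ≤ l := by
  by_contra hc
  have h1 := h'.1 (l + 1) (by dsimp only; omega)
  have h2 := h.2.2.1
  push_cast at h1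
  dsimp only at h1 h2
  omega

theorem sum_ind {α : Type} (s : Finset α) (p : α → Prop) :
    ∑ a ∈ s, ind (p a) = ((s.filter p).card : ℝ) := by
  simp [ind]

theorem inner_sum {r K : ℕ} (hK : 1 ≤ K) {f : Conf} (hf : Hom f) (hb : ¬ Bad r K f) :
    ∑ m ∈ (idx r K).filter (fun m => m.2.1 ∈ box 0 (r + 8 * K)), ind (Av (-1) m f) =
      ∑ x ∈ box 0 (r + 8 * K), ind (WS f x ∧ ¬ EN f x) := by
  rw [sum_ind, sum_ind]
  congr 1
  refine Finset.card_bij (fun m _ => m.2.1) ?_ ?_ ?_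
  · rintro ⟨b, x, l⟩ hm
    simp only [Finset.mem_filter] at hm ⊢
    obtain ⟨a1, a2, a3, -⟩ := av_facts hm.2
    refine ⟨hm.1.2, ?_⟩
    cases b <;> simp only [WS, EN, Bool.not_true, Bool.not_false] at a2 a3 ⊢ <;> omega
  · rintro ⟨b, x, l⟩ hm ⟨b', x', l'⟩ hm' (rfl : x = x')
    simp only [Finset.mem_filter, mem_idx] at hm hm'
    obtain ⟨-, a2, -, a4⟩ := av_facts hm.2
    obtain ⟨-, c2, -, c4⟩ := av_facts hm'.2
    have a5 := hm.1.1.2.2.1
    have c5 := hm'.1.1.2.2.1
    obtain rfl : b = b' := by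
      cases b <;> cases b' <;> simp at a2 c2 a5 c5 ⊢
      · have := a4 a5
        omega
      · have := c4 c5
        omega
    obtain rfl : l = l' := le_antisymm (av_len hm'.2 hm.2) (av_len hm.2 hm'.2)
    rfl
  · intro x hx
    simp only [Finset.mem_filter, WS, EN] at hx ⊢
    obtain ⟨hx, ⟨h1, h2⟩, h3⟩ := hx
    have hx' : nrm x ≤ r + 8 * K := by exact_mod_cast mem_box0.1 hx
    rcases step hf false x with h4 | h4
    · have h5 := step hf true x
      obtain ⟨l, a1, a2⟩ := exists_av hK hf hb (b := false) hx' h2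
        (by simp only [Bool.not_false]; omega) h1 (Or.inr h4)
      exact ⟨(false, x, l), ⟨⟨a1, hx⟩, a2⟩, rfl⟩
    · obtain ⟨l, a1, a2⟩ := exists_av hK hf hb (b := true) hx' h1 h4 h2 (Or.inl rfl)
      exact ⟨(true, x, l), ⟨⟨a1, hx⟩, a2⟩, rfl⟩

theorem av_congr {s : ℤ} {m : Mv} {f g : Conf} {n : ℤ} (h : ∀ y, n < nrm y → f y = g y)
    (hn : n + m.2.2 + 1 < nrm m.2.1) (ha : Av s m f) : Av s m g := by
  obtain ⟨b, x, l⟩ := m
  obtain ⟨h1, h2, h3, h4⟩ := ha
  dsimp only at hn h2 h3 h4 h1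
  have e0 : f x = g x := h x (by omega)
  have e1 : ∀ t : ℤ, -1 ≤ t → t ≤ l + 1 → f (pt b x t) = g (pt b x t) := fun t a1 a2 =>
    h _ (by have := nrm_pt b x t; omega)
  refine ⟨fun t ht => ?_, ?_, ?_, fun t ht => ?_⟩ <;> dsimp only at *
  · rw [← e0, ← e1 t (by omega) (by omega)]
    exact h1 t ht
  · rw [← e0, ← e1 _ (by omega) (by omega)]
    exact h2
  · rw [← e0, ← e1 _ (by omega) (by omega)]
    exact h3
  · have a1 := nrm_pt b x t
    have a2 := nrm_dir (!b) (pt b x t)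
    rw [← e0, ← h _ (by omega), ← h (_ - _) (by omega)]
    exact h4 t ht

/-- the number of towers that can be moved down -/
noncomputable def Dn (r K : ℕ) (f : Conf) : ℝ := ∑ m ∈ idx r K, ind (Av (-1) m f)

theorem Dn_sub {r K : ℕ} (hK : 1 ≤ K) {f g : Conf} (hf : Hom f) (hg : Hom g)
    (h : ∀ y, (r : ℤ) + 5 * K < nrm y → f y = g y) (hb : ¬ Bad r K f) (hb' : ¬ Bad r K g) :
    Dn r K f - Dn r K g = ∑ x ∈ box 0 (r + 8 * K), ind (WS f x ∧ ¬ EN f x) -
      ∑ x ∈ box 0 (r + 8 * K), ind (WS g x ∧ ¬ EN g x) := by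
  rw [Dn, Dn, ← Finset.sum_filter_add_sum_filter_not (idx r K) (fun m => m.2.1 ∈ box 0 (r + 8 * K)),
    ← Finset.sum_filter_add_sum_filter_not (idx r K) (fun m => m.2.1 ∈ box 0 (r + 8 * K)),
    inner_sum hK hf hb, inner_sum hK hg hb']
  have : ∑ m ∈ (idx r K).filter (fun m => ¬ m.2.1 ∈ box 0 (r + 8 * K)), ind (Av (-1) m f) =
      ∑ m ∈ (idx r K).filter (fun m => ¬ m.2.1 ∈ box 0 (r + 8 * K)), ind (Av (-1) m g) := by
    refine Finset.sum_congr rfl fun m hm => congrArg ind (propext ?_)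
    simp only [Finset.mem_filter, mem_idx, mem_box0] at hm
    push_cast at hm
    have hn : (r : ℤ) + 5 * K + m.2.2 + 1 < nrm m.2.1 := by omega
    exact ⟨av_congr h hn, av_congr (fun y hy => (h y hy).symm) hn⟩
  rw [this]
  ring

/-- the reflected configuration -/
def rf (f : Conf) : Conf := fun y => -f (-y)

/-- the reflected tower -/
def rm (m : Mv) : Mv := (m.1, -pt m.1 m.2.1 m.2.2, m.2.2)

theorem rf_rf (f : Conf) : rf (rf f) = f := by funext y; simp [rf]

theorem rm_rm (m : Mv) : rm (rm m) = m := by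
  obtain ⟨b, x, l⟩ := m
  simp [rm, pt_neg, pt_zero]

theorem hom_rf {f : Conf} (hf : Hom f) : Hom (rf f) := fun x y h => by
  have := hf (-y) (-x) (by
    rw [← h, Prod.fst_neg, Prod.fst_neg, Prod.snd_neg, Prod.snd_neg, neg_sub_neg, neg_sub_neg])
  rw [← this, rf, rf, neg_sub_neg]

theorem run_rf {b : Bool} {x : ℤ × ℤ} {l : ℕ} {f : Conf} (h : Run b x l f) :
    Run b (-pt b x l) l (rf f) := fun t ht => by
  have h1 := h (l - t) (by omega)
  rw [Nat.cast_sub ht] at h1
  simp only [rf, pt_neg, neg_neg, h1, h l le_rfl]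
  ring

theorem bad_rf {r K : ℕ} {f : Conf} (h : Bad r K (rf f)) : Bad r K f := by
  obtain ⟨b, x, h1, h2⟩ := h
  refine ⟨b, _, fun t ht => ?_, rf_rf f ▸ run_rf h2⟩
  have := h1 (K - t) (by omega)
  rwa [pt_neg, nrm_neg, ← Nat.cast_sub ht]

theorem av_rf {s : ℤ} {m : Mv} {f : Conf} (h : Av s m f) : Av (-s) (rm m) (rf f) := by
  obtain ⟨b, x, l⟩ := m
  obtain ⟨h1, h2, h3, h4⟩ := h
  dsimp only at h1 h2 h3 h4
  have e := h1 l le_rfl
  refine ⟨run_rf h1, ?_, ?_, fun t ht => ?_⟩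
  · simp only [rm, rf, pt_neg, neg_neg, sub_neg_eq_add, e, h3]
    ring
  · simp only [rm, rf, pt_neg, neg_neg, sub_add_cancel_left, e, h2]
    ring
  · have ht' : t ≤ l := ht
    have a := h4 (l - t) (by omega)
    rw [Nat.cast_sub ht'] at a
    simp only [rm, rf, pt_neg, neg_neg, e, neg_add, neg_sub, sub_neg_eq_add, ← sub_eq_add_neg,
      add_comm (dir !b), a.1, a.2]
    constructor <;> ring

theorem rm_mem {r K : ℕ} {m : Mv} (h : m ∈ idx r K) : rm m ∈ idx r K := by
  rw [mem_idx] at h ⊢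
  simp only [rm, pt_neg, sub_self, pt_zero, nrm_neg]
  tauto

theorem up_sum (r K : ℕ) (f : Conf) : ∑ m ∈ idx r K, ind (Av 1 m f) = Dn r K (rf f) :=
  Finset.sum_nbij' rm rm (fun _ => rm_mem) (fun _ => rm_mem) (fun m _ => rm_rm m)
    (fun m _ => rm_rm m) fun m _ => congrArg ind (propext ⟨av_rf, fun h => by
      simpa only [neg_neg, rm_rm, rf_rf] using av_rf h⟩)

theorem rf_sum (n : ℕ) (f : Conf) : ∑ x ∈ box 0 n, ind (WS (rf f) x ∧ ¬ EN (rf f) x) =
    ∑ x ∈ box 0 n, ind (EN f x ∧ ¬ WS f x) := by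
  refine Finset.sum_nbij' Neg.neg Neg.neg (fun x => by simp [mem_box0, nrm_neg])
    (fun x => by simp [mem_box0, nrm_neg]) (fun x _ => neg_neg x) (fun x _ => neg_neg x)
    fun x _ => congrArg ind (propext ?_)
  simp only [WS, EN, rf, neg_add, sub_eq_add_neg, neg_neg]
  omega

theorem ind_diff (p q : Prop) : ind (p ∧ ¬ q) - ind (q ∧ ¬ p) = ind p - ind q := by
  by_cases hp : p <;> by_cases hq : q <;> simp [ind, hp, hq]

theorem shift (h : ℤ × ℤ → ℝ) {n : ℤ} {R : ℕ} (hn : n + 1 ≤ R) (h0 : ∀ y, n < nrm y → h y = 0)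
    (v : ℤ × ℤ) (hv : nrm v ≤ 1) : ∑ y ∈ box 0 R, h (y + v) = ∑ y ∈ box 0 R, h y := by
  rw [← finsum_eq_sum_of_support_subset (fun y => h (y + v)) (s := box 0 R),
    ← finsum_eq_sum_of_support_subset h (s := box 0 R)]
  · exact finsum_comp_equiv (Equiv.addRight v)
  · intro y hy
    by_contra hc
    rw [Finset.mem_coe, mem_box0] at hc
    exact hy (h0 y (by omega))
  · intro y hy
    by_contra hc
    rw [Finset.mem_coe, mem_box0] at hc
    have := nrm_add (y + v) (-v)
    rw [add_neg_cancel_right, nrm_neg] at this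
    exact hy (h0 _ (by omega))

theorem face {f : Conf} (hf : Hom f) (y : ℤ × ℤ) :
    ind (WS f (y + (dir true + dir false))) - ind (EN f y) =
      ((f (y + (dir true + dir false)) : ℝ) - f (y + dir true) - f (y + dir false) + f y) / 2 := by
  have h1 := step hf true y
  have h2 := step hf false y
  have h3 := step hf false (y + dir true)
  have h4 := step hf true (y + dir false)
  have e1 : y + (dir true + dir false) - dir true = y + dir false := by abel
  have e2 : y + (dir true + dir false) - dir false = y + dir true := by abel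
  rw [add_assoc] at h3
  rw [add_assoc, add_comm (dir false)] at h4
  have : (2 * ((if WS f (y + (dir true + dir false)) then 1 else 0) -
      (if EN f y then 1 else 0)) : ℤ) =
      f (y + (dir true + dir false)) - f (y + dir true) - f (y + dir false) + f y := by
    simp only [WS, EN, e1, e2]
    split_ifs <;> omega
  have h5 := congrArg (Int.cast : ℤ → ℝ) this
  push_cast at h5
  simp only [ind]
  linarith

end NullP

open NullP

theorem null_row : NullStmt := by
  intro r K hK f g hf hg h hb hb'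
  have h' : ∀ y, (r : ℤ) + 5 * K < nrm y → f y = g y := fun y hy => h y (by
    rw [mem_box0]; push_cast; omega)
  have e1 := Dn_sub hK hf hg h' hb hb'
  have e2 := Dn_sub hK (hom_rf hf) (hom_rf hg) (r := r)
    (fun y hy => by rw [rf, rf, h' _ (by rwa [nrm_neg])]) (mt bad_rf hb) (mt bad_rf hb')
  rw [rf_sum, rf_sum] at e2
  have d : ∀ f : Conf, ∑ m ∈ idx r K, dr m f = Dn r K f - Dn r K (rf f) := fun f => by
    simp only [dr, Finset.sum_sub_distrib, up_sum, Dn]
  have c : ∀ f : Conf, ∑ x ∈ box 0 (r + 8 * K), ind (WS f x ∧ ¬ EN f x) -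
      ∑ x ∈ box 0 (r + 8 * K), ind (EN f x ∧ ¬ WS f x) =
      ∑ x ∈ box 0 (r + 8 * K), ind (WS f x) - ∑ x ∈ box 0 (r + 8 * K), ind (EN f x) := fun f => by
    simp only [← Finset.sum_sub_distrib, ind_diff]
  have hR : (r : ℤ) + 5 * K + 1 + 1 ≤ ((r + 8 * K : ℕ) : ℤ) := by push_cast; omega
  have s1 := shift (fun y => ind (WS f y) - ind (WS g y)) hR (fun y hy => by
    have a1 := nrm_dir true y
    have a2 := nrm_dir false y
    simp only [WS]
    rw [h' y (by omega), h' (y - dir true) (by omega), h' (y - dir false) (by omega), sub_self])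
    (dir true + dir false) (by decide)
  have s2 := fun v hv => shift (fun y => (f y : ℝ) - g y) hR
    (fun y hy => by rw [h' y (by omega), sub_self]) v hv
  have t1 := s2 (dir true + dir false) (by decide)
  have t2 := s2 (dir true) (by decide)
  have t3 := s2 (dir false) (by decide)
  have u1 := Finset.sum_congr (s₁ := box 0 (r + 8 * K)) rfl fun y _ => face hf y
  have u2 := Finset.sum_congr (s₁ := box 0 (r + 8 * K)) rfl fun y _ => face hg y
  simp only [Finset.sum_sub_distrib, Finset.sum_add_distrib, ← Finset.sum_div] at s1 t1 t2 t3 u1 u2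
  have c1 := c f
  have c2 := c g
  rw [d f, d g]
  linarith

end Pool.Agent.MP_151d89_pr.H30
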