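import Pool.Agent.MP_151d89_pr.H30.Energy

/-!
The covariance bound and the contradiction with tail triviality.
-/

set_option autoImplicit false
open MeasureTheory Finset Filter Topology

namespace Pool.Agent.MP_151d89_pr.H30
open Pool.Agent.MP_151d89_pr.H82 Pool.Agent.MP_151d89_pr.H33 Pool.Agent.MP_151d89_pr.H67
open Classical

theorem int_SS {μ : Measure Conf} (hμ : Gibbs μ) (r K : ℕ) {F : Conf → ℝ} (hF : Measurable F)
    (hb : ∀ f, |F f| ≤ 1) : ∫ f, F f * SS r K f ∂μ =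
      ∑ m ∈ idx r K, psi r K m * ∫ f, ind (Av (-1) m f) * (F f - F (flip m f)) ∂μ := by
  have := hμ.1
  have e : ∀ f, F f * SS r K f = ∑ m ∈ idx r K, psi r K m * (dr m f * F f) := fun f => by
    rw [SS, mul_sum]
    exact sum_congr rfl fun m _ => by ring
  simp only [e]
  rw [integral_finsetSum _ fun m _ => (intg (μ := μ) (φ := fun f => dr m f * F f)
    ((meas_dr m).mul hF) fun f => abs_mul_le (dr_le _ _) (hb _)).const_mul _]
  exact sum_congr rfl fun m _ => by rw [integral_const_mul, int_dr hμ m hF hb]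

theorem mean_SS {μ : Measure Conf} (hμ : Gibbs μ) (r K : ℕ) : ∫ f, SS r K f ∂μ = 0 := by
  simpa using int_SS hμ r K (F := fun _ => 1) measurable_const (by simp)

theorem meas_ge (x : ℤ × ℤ) (t : ℤ) : MeasurableSet {f : Conf | t ≤ f x} :=
  measurableSet_le measurable_const (measurable_pi_apply x)

theorem cov_ge {μ : Measure Conf} (hμ : Gibbs μ) {r K : ℕ} (hK : 1 ≤ K) (x : ℤ × ℤ) (t : ℤ)
    (hx : nrm x ≤ r) : μ.real {f | Av (-1) (true, x, 0) f ∧ f x = t} ≤
      ∫ f, ind (t ≤ f x) * SS r K f ∂μ := by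
  have := hμ.1
  have mF := meas_ind (meas_ge x t)
  rw [int_SS hμ r K mF fun f => ind_abs _]
  have h0 : ∀ (m : Mv) (f : Conf), 0 ≤ ind (Av (-1) m f) * (ind (t ≤ f x) - ind (t ≤ flip m f x)) := by
    intro m f
    refine mul_nonneg (ind_mem _).1 (sub_nonneg.2 ?_)
    by_cases h : t ≤ flip m f x
    · rw [ind_pos h, ind_pos (h.trans (flip_le m f x))]
    · rw [ind_neg h]; exact (ind_mem _).1
  have hm : ((true, x, 0) : Mv) ∈ idx r K := by
    rw [mem_idx]
    simp only [Nat.cast_zero, pt_zero, true_or, Nat.zero_le, and_true, true_and]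
    omega
  refine le_trans ?_ (single_le_sum (f := fun m => psi r K m *
    ∫ f, ind (Av (-1) m f) * (ind (t ≤ f x) - ind (t ≤ flip m f x)) ∂μ)
    (fun m _ => mul_nonneg (psi_mem r K m).1 (integral_nonneg (h0 m))) hm)
  have mA : MeasurableSet {f : Conf | Av (-1) (true, x, 0) f ∧ f x = t} :=
    (meas_Av _ _).inter (measurableSet_eq_fun (measurable_pi_apply x) measurable_const)
  rw [psi_one hK (by simp only; omega), one_mul, ← int_ind μ mA]
  refine integral_mono (intg (meas_ind mA) fun f => ind_abs _) (intg (B := 1 * (1 + 1))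
    ((meas_ind (meas_Av _ _)).mul (mF.sub (mF.comp (meas_flip _)))) fun f =>
      abs_mul_le (ind_abs _) ((abs_sub _ _).trans (add_le_add (ind_abs _) (ind_abs _)))) fun f => ?_
  by_cases h : Av (-1) (true, x, 0) f ∧ f x = t
  · have e : flip (true, x, 0) f x = f x - 2 := flip_in f (tow_start (true, x, 0))
    simp only
    rw [ind_pos h, ind_pos h.1, ind_pos h.2.ge, ind_neg (by rw [e, h.2]; omega)]
    simp
  · simp only
    rw [ind_neg h]
    exact h0 _ f

theorem SS_far (hN : NullStmt) {r K s : ℕ} (hK : 1 ≤ K) (hs : s ≤ r) {f g : Conf} (hf : Hom f)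
    (hg : Hom g) (h : ∀ y, y ∉ box 0 s → f y = g y) (b1 : ¬ Bad r K f) (b2 : ¬ Bad r K g) :
    SS r K f = SS r K g := by
  have h1 := hN r K hK f g hf hg (fun y hy => h y fun hy' => hy (box_mono (by omega) hy')) b1 b2
  rw [← sub_eq_zero, ← sum_sub_distrib] at h1
  rw [← sub_eq_zero, SS, SS, ← sum_sub_distrib, ← h1]
  refine sum_congr rfl fun m hm => ?_
  by_cases h2 : nrm m.2.1 ≤ r + 3 * K
  · rw [psi_one hK h2, one_mul, one_mul]
  · rw [mem_idx] at hm
    rw [dr_local (m := m) (f := f) (g := g) fun y hy => h y fun hy' => ?_, sub_self, sub_self]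
    have h3 := nrm_near hy
    rw [mem_box0] at hy'
    omega

theorem far_err (hN : NullStmt) {μ : Measure Conf} (hμ : Gibbs μ) {r K s : ℕ} (hK : 1 ≤ K)
    (hs : s ≤ r) {F : Conf → ℝ} (hF : Measurable F) (hb : ∀ f, |F f| ≤ 1) :
    ∫ f, F f * SS r K f ∂μ ≤ ∫ f, av (box 0 s) F f * SS r K f ∂μ +
      4 * ((idx r K).card * μ.real {f | Bad r K f}) := by
  have := hμ.1
  have mS := meas_SS r K
  have mB := meas_ind (meas_Bad r K)
  have bB : ∀ f, |ind (Bad r K f)| ≤ 1 := fun f => ind_abs _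
  have e1 : ∫ f, av (box 0 s) F f * SS r K f ∂μ = ∫ f, av (box 0 s) (SS r K) f * F f ∂μ := by
    rw [int_av_mul hμ _ hF mS hb (SS_abs r K), int_av_mul hμ _ mS hF (SS_abs r K) hb]
    simp only [mul_comm]
  have i1 : Integrable (fun f => av (box 0 s) (SS r K) f * F f) μ :=
    intg ((meas_av _ mS).mul hF) fun f => abs_mul_le (av_abs (SS_abs r K) f) (hb f)
  have i2 : Integrable (fun f => ind (Bad r K f)) μ := intg mB bB
  have i3 : Integrable (av (box 0 s) fun f => ind (Bad r K f)) μ := intg (meas_av _ mB) (av_abs bB)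
  have e2 : 4 * ((idx r K).card * μ.real {f | Bad r K f}) = ∫ f, 2 * (idx r K).card *
      (ind (Bad r K f) + av (box 0 s) (fun f => ind (Bad r K f)) f) ∂μ := by
    rw [integral_const_mul, integral_add i2 i3, int_av hμ _ mB bB, int_ind μ (meas_Bad r K)]
    ring
  have i4 : Integrable (fun f => 2 * (idx r K).card *
      (ind (Bad r K f) + av (box 0 s) (fun f => ind (Bad r K f)) f)) μ := (i2.add i3).const_mul _
  rw [e1, e2, ← integral_add i1 i4]
  refine integral_mono_ae (intg (hF.mul mS) fun f => abs_mul_le (hb f) (SS_abs r K f))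
    (i1.add i4) ?_
  filter_upwards [hμ.2.1] with f hf
  have key : ∀ σ : ℝ, |σ| ≤ 1 → σ * SS r K f ≤ av (box 0 s) (SS r K) f * σ +
      2 * (idx r K).card * (ind (Bad r K f) + av (box 0 s) (fun f => ind (Bad r K f)) f) := by
    intro σ hσ
    rw [← av_const (box 0 s) (σ * SS r K f) hf, ← av_const (box 0 s) (ind (Bad r K f)) hf, ← av_add,
      ← av_smul, mul_comm _ σ, ← av_smul, ← av_add]
    refine av_le fun a ha => ?_
    have h1 := diff_le (SS_abs r K f) (SS_abs r K a) fun b1 b2 =>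
      SS_far hN hK hs hf (mem_FS.1 ha).1 (fun y hy => ((mem_FS.1 ha).2 y hy).symm) b1 b2
    have h2 := (le_abs_self _).trans (abs_mul_le hσ h1)
    linarith
  exact key _ (hb f)

theorem bad_le {μ : Measure Conf} [IsProbabilityMeasure μ] {C p : ℝ} (hC : 0 ≤ C) (hp : 0 ≤ p)
    {r K : ℕ} (H : Hyp μ C p r K) :
    μ.real {f | Bad r K f} ≤ 2 * (2 * (r + 10 * K) + 1) ^ 2 * (C * (p ^ K * p ^ K)) := by
  set I := ((univ : Finset Bool) ×ˢ box 0 (r + 10 * K)).filter fun z => Ann r K z.1 z.2 K with hI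
  have h1 : {f | Bad r K f} ⊆ ⋃ z ∈ I, {f | Run z.1 z.2 K f} := by
    rintro f ⟨b, x, h1, h2⟩
    refine Set.mem_biUnion (x := (b, x)) (mem_coe.2 (mem_filter.2 ⟨mem_product.2
      ⟨mem_univ _, mem_box0.2 ?_⟩, h1⟩)) h2
    simpa [pt_zero] using (h1 0 (Nat.zero_le _)).2
  refine (measureReal_mono h1 (measure_ne_top _ _)).trans ((measureReal_biUnion_finset_le _ _).trans
    ((sum_le_sum fun z hz => H _ _ _ (mem_filter.1 hz).2).trans ?_))
  rw [sum_const, nsmul_eq_mul]
  refine mul_le_mul_of_nonneg_right ?_ (by positivity)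
  have h2 := card_filter_le ((univ : Finset Bool) ×ˢ box 0 (r + 10 * K))
    fun z => Ann r K z.1 z.2 K
  rw [card_product, card_univ, Fintype.card_bool, card_box] at h2
  exact_mod_cast h2

theorem card_idx (r K : ℕ) :
    ((idx r K).card : ℝ) ≤ 2 * ((2 * (r + 9 * K) + 1) ^ 2 * (2 * r + 2 * K + 1)) := by
  have h : (idx r K).card ≤ _ := card_filter_le _ _
  rw [card_product, card_product, card_univ, Fintype.card_bool, card_box, card_range] at h
  exact_mod_cast h

theorem err_le {μ : Measure Conf} [IsProbabilityMeasure μ] {C p : ℝ} (hC : 0 ≤ C) (hp : 0 ≤ p)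
    (hp1 : p ≤ 1) {c r K : ℕ} (hK : 1 ≤ K) (hr : r ≤ c * K) (H : Hyp μ C p r K) :
    (idx r K).card ^ 2 * μ.real {f | Bad r K f} ≤
      8 * C * (2 * c + 21) ^ 8 * ((K : ℝ) ^ 8 * p ^ K) := by
  have h0 : (1 : ℝ) ≤ K := by exact_mod_cast hK
  have h1 : (r : ℝ) ≤ c * K := by exact_mod_cast hr
  have h2 : (2 * (r + 10 * K) + 1 : ℝ) ≤ (2 * c + 21) * K := by linarith
  have h3 : (2 * (r + 9 * K) + 1 : ℝ) ≤ (2 * c + 21) * K := by linarith
  have h4 : (2 * r + 2 * K + 1 : ℝ) ≤ (2 * c + 21) * K := by linarith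
  have h5 : p ^ K ≤ 1 := pow_le_one₀ hp hp1
  calc _ ≤ (2 * (((2 * c + 21) * K : ℝ) ^ 2 * ((2 * c + 21) * K))) ^ 2 *
        (2 * ((2 * c + 21) * K) ^ 2 * (C * (p ^ K * 1))) := by
        refine mul_le_mul (pow_le_pow_left₀ (Nat.cast_nonneg _) ((card_idx r K).trans ?_) 2)
          ((bad_le hC hp H).trans ?_) measureReal_nonneg (by positivity) <;> gcongr
    _ = _ := by ring

theorem core (hN : NullStmt) {μ : Measure Conf} (hμ : Gibbs μ) (hT : Triv μ) {C p : ℝ}
    (hC : 0 ≤ C) (hp : 0 ≤ p) (hp1 : p < 1) (c : ℕ)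
    (H : ∀ n : ℕ, ∃ r K : ℕ, n ≤ r ∧ n ≤ K ∧ r ≤ c * K ∧ Hyp μ C p r K) (x : ℤ × ℤ) :
    μ {f | Av (-1) (true, x, 0) f} = 0 := by
  have := hμ.1
  have hU : {f : Conf | Av (-1) (true, x, 0) f} =
      ⋃ t : ℤ, {f | Av (-1) (true, x, 0) f ∧ f x = t} := by
    ext f; simp
  rw [hU]
  refine measure_iUnion_null fun t => ?_
  by_contra h0
  set p0 := μ.real {f | Av (-1) (true, x, 0) f ∧ f x = t} with hp0
  have hpos : 0 < p0 := ENNReal.toReal_pos h0 (measure_ne_top _ _)
  obtain ⟨W, hW⟩ := gw_bdd hp hp1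
  set E := 18 * C * W ^ 2 * (2 * c + 21) ^ 2 + p0 with hE
  have hE0 : 0 < E := by positivity
  set F : Conf → ℝ := fun f => ind (t ≤ f x) with hF
  have mF : Measurable F := meas_ind (meas_ge x t)
  have bF : ∀ f, |F f| ≤ 1 := fun f => ind_abs _
  set e := ∫ f, F f ∂μ with he
  have be : |e| ≤ 1 := by
    simpa using norm_integral_le_of_norm_le_const (μ := μ) (f := F) (C := 1) (ae_of_all _ bF)
  have mu : ∀ s, Measurable fun f => av (box 0 s) F f - e := fun s => (meas_av _ mF).sub_const _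
  have bu : ∀ s f, |av (box 0 s) F f - e| ≤ 1 + 1 := fun s f =>
    (abs_sub _ _).trans (add_le_add (av_abs bF f) be)
  obtain ⟨s, hs⟩ : ∃ s : ℕ, ∫ f, (av (box 0 s) F f - e) ^ 2 ∂μ < p0 ^ 2 / (4 * E) := by
    obtain ⟨ns, h⟩ := av_tendsto hμ hT mF bF
    have h1 := tendsto_integral_of_dominated_convergence (μ := μ)
      (F := fun i f => (av (box 0 (ns i)) F f - e) ^ 2) (f := fun _ => 0) (fun _ => (1 + 1) ^ 2)
      (fun i => ((mu _).pow_const 2).aestronglyMeasurable) (integrable_const _)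
      (fun i => ae_of_all _ fun f => by
        rw [Real.norm_eq_abs, abs_pow]
        exact pow_le_pow_left₀ (abs_nonneg _) (bu _ f) 2)
      (by
        filter_upwards [h] with f hf
        simpa [← he] using (hf.sub_const e).pow 2)
    rw [integral_zero] at h1
    obtain ⟨i, hi⟩ := (h1.eventually (gt_mem_nhds (show 0 < p0 ^ 2 / (4 * E) by positivity))).exists
    exact ⟨_, hi⟩
  have h2 : Tendsto (fun K : ℕ => 8 * C * (2 * c + 21) ^ 8 * ((K : ℝ) ^ 8 * p ^ K)) atTop (𝓝 0) := by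
    simpa using (tendsto_pow_const_mul_const_pow_of_abs_lt_one 8
      (by rwa [abs_of_nonneg hp])).const_mul (8 * C * (2 * c + 21) ^ 8)
  obtain ⟨n, hn⟩ := eventually_atTop.1
    (h2.eventually (gt_mem_nhds (show 0 < p0 / 16 by positivity)))
  obtain ⟨r, K, h3, h4, h5, h6⟩ := H (n + s + (nrm x).toNat + 1)
  have hK : 1 ≤ K := by omega
  have h7 := (err_le hC hp hp1.le hK h5 h6).trans (hn K (by omega)).le
  have h8 : ((idx r K).card : ℝ) * μ.real {f | Bad r K f} ≤
      (idx r K).card ^ 2 * μ.real {f | Bad r K f} := by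
    refine mul_le_mul_of_nonneg_right ?_ measureReal_nonneg
    exact_mod_cast Nat.le_self_pow two_ne_zero _
  have h9 : ∫ f, SS r K f ^ 2 ∂μ ≤ E := by
    have h0 : (1 : ℝ) ≤ K := by exact_mod_cast hK
    have h1 : (r : ℝ) ≤ c * K := by exact_mod_cast h5
    have h10 : ((2 * (r + 9 * K) + 1) / K : ℝ) ≤ 2 * c + 21 := by
      rw [div_le_iff₀ (by linarith)]; linarith
    have h11 : 18 * C * W ^ 2 * ((2 * (r + 9 * K) + 1) / K : ℝ) ^ 2 ≤
        18 * C * W ^ 2 * (2 * c + 21) ^ 2 := by gcongr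
    linarith [energy hN hμ hC hp hp1.le hW hK h6]
  have h10 := (cov_ge hμ (r := r) hK x t (by omega)).trans
    (far_err hN hμ hK (s := s) (by omega) mF bF)
  have iS : Integrable (SS r K) μ := intg (meas_SS r K) (SS_abs r K)
  have i1 : Integrable (fun f => (av (box 0 s) F f - e) ^ 2) μ :=
    intg (B := (1 + 1) ^ 2) ((mu s).pow_const 2) fun f => by
      rw [abs_pow]; exact pow_le_pow_left₀ (abs_nonneg _) (bu _ f) 2
  have i2 : Integrable (fun f => SS r K f ^ 2) μ :=
    intg (B := (idx r K).card ^ 2) ((meas_SS r K).pow_const 2) fun f => by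
      rw [abs_pow]; exact pow_le_pow_left₀ (abs_nonneg _) (SS_abs _ _ f) 2
  have h11 : ∫ f, av (box 0 s) F f * SS r K f ∂μ ≤ ∫ f, (E / p0 * (av (box 0 s) F f - e) ^ 2 +
      p0 / (4 * E) * SS r K f ^ 2) + e * SS r K f ∂μ := by
    refine integral_mono (intg ((meas_av _ mF).mul (meas_SS r K))
      fun f => abs_mul_le (av_abs bF f) (SS_abs _ _ f))
      (((i1.const_mul _).add (i2.const_mul _)).add (iS.const_mul _)) fun f => ?_
    have h12 : 0 ≤ E / p0 * ((av (box 0 s) F f - e) - p0 / (2 * E) * SS r K f) ^ 2 := by positivity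
    have h13 : E / p0 * ((av (box 0 s) F f - e) - p0 / (2 * E) * SS r K f) ^ 2 =
        E / p0 * (av (box 0 s) F f - e) ^ 2 + p0 / (4 * E) * SS r K f ^ 2 -
          (av (box 0 s) F f - e) * SS r K f := by
      field_simp; ring
    simp only
    linarith
  have i3 : Integrable (fun f => E / p0 * (av (box 0 s) F f - e) ^ 2 +
      p0 / (4 * E) * SS r K f ^ 2) μ := (i1.const_mul _).add (i2.const_mul _)
  rw [integral_add i3 (iS.const_mul _),
    integral_add (i1.const_mul _) (i2.const_mul _), integral_const_mul, integral_const_mul,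
    integral_const_mul, mean_SS hμ, mul_zero, add_zero] at h11
  have h12 : E / p0 * ∫ f, (av (box 0 s) F f - e) ^ 2 ∂μ ≤ p0 / 4 :=
    (mul_le_mul_of_nonneg_left hs.le (by positivity)).trans (le_of_eq (by field_simp))
  have h13 : p0 / (4 * E) * ∫ f, SS r K f ^ 2 ∂μ ≤ p0 / 4 :=
    (mul_le_mul_of_nonneg_left h9 (by positivity)).trans (le_of_eq (by field_simp))
  linarith

end Pool.Agent.MP_151d89_pr.H30
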