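import Pool.Agent.MP_151d89_pr.H30.Rev

/-!
The energy bound.
-/

set_option autoImplicit false
open MeasureTheory Finset

namespace Pool.Agent.MP_151d89_pr.H30
open Pool.Agent.MP_151d89_pr.H82 Pool.Agent.MP_151d89_pr.H33 Pool.Agent.MP_151d89_pr.H67
open Classical

theorem alg {ι : Type} (I : Finset ι) (ψ a : ι → ℝ) : (∑ m ∈ I, ψ m * a m) ^ 2 =
    ∑ m ∈ I, ψ m ^ 2 * (a m * ∑ n ∈ I, a n) +
      1 / 2 * ∑ m ∈ I, ∑ n ∈ I, -((ψ m - ψ n) ^ 2 * (a m * a n)) := by
  have e1 : ∑ m ∈ I, ∑ n ∈ I, ψ n ^ 2 * (a m * a n) = ∑ m ∈ I, ∑ n ∈ I, ψ m ^ 2 * (a m * a n) := by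
    rw [sum_comm]
    exact sum_congr rfl fun m _ => sum_congr rfl fun n _ => by ring
  have e2 : ∑ m ∈ I, ∑ n ∈ I, -((ψ m - ψ n) ^ 2 * (a m * a n)) =
      2 * ∑ m ∈ I, ∑ n ∈ I, (ψ m * a m) * (ψ n * a n) -
        ∑ m ∈ I, ∑ n ∈ I, ψ m ^ 2 * (a m * a n) - ∑ m ∈ I, ∑ n ∈ I, ψ n ^ 2 * (a m * a n) := by
    simp only [mul_sum, ← sum_sub_distrib]
    exact sum_congr rfl fun m _ => sum_congr rfl fun n _ => by ring
  have e3 : ∑ m ∈ I, ψ m ^ 2 * (a m * ∑ n ∈ I, a n) = ∑ m ∈ I, ∑ n ∈ I, ψ m ^ 2 * (a m * a n) := by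
    simp only [mul_sum]
  rw [e2, e1, e3, sq, sum_mul_sum]
  ring

theorem nrm_near {x y : ℤ × ℤ} {s : ℕ} (h : y ∈ box x s) :
    nrm y ≤ nrm x + s ∧ nrm x ≤ nrm y + s := by
  rw [mem_box] at h
  simp only [nrm, Int.abs_eq_natAbs]
  omega

theorem pt_box (b : Bool) (x : ℤ × ℤ) {t u l : ℕ} (ht : t ≤ l) (hu : u ≤ l) :
    pt b x u ∈ box (pt b x t) l := by
  cases b <;> simp only [mem_box, pt_true, pt_false] <;> omega

theorem pt_box0 (b : Bool) (x : ℤ × ℤ) {u l : ℕ} (hu : u ≤ l) : pt b x u ∈ box x l := by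
  simpa only [Nat.cast_zero, pt_zero] using pt_box b x (Nat.zero_le l) hu

theorem nrm_conv (b : Bool) (x : ℤ × ℤ) {t l : ℕ} (ht : t ≤ l) :
    nrm (pt b x t) ≤ max (nrm x) (nrm (pt b x l)) := by
  cases b <;> simp only [pt_true, pt_false, nrm, Int.abs_eq_natAbs] <;> omega

theorem mem_box0 {x : ℤ × ℤ} {s : ℕ} : x ∈ box 0 s ↔ nrm x ≤ s := by
  simp only [mem_box, nrm, Int.abs_eq_natAbs, Prod.fst_zero, Prod.snd_zero]
  omega

/-- the cut-off -/
noncomputable def psi (r K : ℕ) (m : Mv) : ℝ :=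
  max 0 (min 1 (((r : ℝ) + 4 * K - nrm m.2.1) / K))

/-- the weighted drift -/
noncomputable def SS (r K : ℕ) (f : Conf) : ℝ := ∑ m ∈ idx r K, psi r K m * dr m f

/-- the total drift -/
noncomputable def AA (r K : ℕ) (f : Conf) : ℝ := ∑ m ∈ idx r K, dr m f

/-- exponential tails of runs in the annulus -/
def Hyp (μ : Measure Conf) (C p : ℝ) (r K : ℕ) : Prop :=
  ∀ b x l, Ann r K b x l → μ.real {f | Run b x l f} ≤ C * (p ^ l * p ^ l)

theorem psi_mem (r K : ℕ) (m : Mv) : 0 ≤ psi r K m ∧ psi r K m ≤ 1 :=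
  ⟨le_max_left _ _, max_le zero_le_one (min_le_left _ _)⟩

theorem psi_one {r K : ℕ} (hK : 1 ≤ K) {m : Mv} (h : nrm m.2.1 ≤ r + 3 * K) : psi r K m = 1 := by
  have h0 : (0 : ℝ) < K := by exact_mod_cast hK
  have h1 : (nrm m.2.1 : ℝ) ≤ r + 3 * K := by exact_mod_cast h
  rw [psi, min_eq_left ((one_le_div h0).2 (by linarith)), max_eq_right zero_le_one]

theorem psi_zero {r K : ℕ} {m : Mv} (h : (r : ℤ) + 4 * K ≤ nrm m.2.1) : psi r K m = 0 := by
  have h1 : (r : ℝ) + 4 * K ≤ nrm m.2.1 := by exact_mod_cast h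
  exact max_eq_left ((min_le_right _ _).trans
    (div_nonpos_of_nonpos_of_nonneg (by linarith) (Nat.cast_nonneg _)))

theorem psi_lip {r K : ℕ} {m n : Mv} {s : ℕ} (h : n.2.1 ∈ box m.2.1 s) :
    |psi r K m - psi r K n| ≤ s / K := by
  have h1 : |nrm n.2.1 - nrm m.2.1| ≤ s := by
    have := nrm_near h
    rw [abs_le]
    omega
  have h2 : |(nrm n.2.1 : ℝ) - nrm m.2.1| ≤ s := by exact_mod_cast h1
  unfold psi
  refine (abs_max_sub_max_le_max _ _ _ _).trans (max_le (by simp; positivity) ?_)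
  refine (abs_min_sub_min_le_max _ _ _ _).trans (max_le (by simp; positivity) ?_)
  rw [← sub_div, abs_div, Nat.abs_cast]
  refine div_le_div_of_nonneg_right ?_ (Nat.cast_nonneg _)
  rw [show (r : ℝ) + 4 * K - nrm m.2.1 - (r + 4 * K - nrm n.2.1) = nrm n.2.1 - nrm m.2.1 by ring]
  exact h2

theorem mem_idx {r K : ℕ} {m : Mv} : m ∈ idx r K ↔
    (nrm m.2.1 ≤ r + 9 * K ∧ m.2.2 < 2 * r + 2 * K + 1) ∧ (m.1 = true ∨ 1 ≤ m.2.2) ∧
      nrm (pt m.1 m.2.1 m.2.2) ≤ r + 9 * K ∧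
      (m.2.2 ≤ K ∨ (nrm m.2.1 ≤ r + K ∧ nrm (pt m.1 m.2.1 m.2.2) ≤ r + K)) := by
  simp only [idx, mem_filter, mem_product, mem_univ, true_and, mem_range, mem_box0, Nat.cast_add,
    Nat.cast_mul, Nat.cast_ofNat]

theorem sum_abs {ι : Type} (I : Finset ι) {a : ι → ℝ} (h : ∀ m, |a m| ≤ 1) :
    |∑ m ∈ I, a m| ≤ I.card :=
  (abs_sum_le_sum_abs _ _).trans ((sum_le_sum fun m _ => h m).trans (by simp))

theorem AA_abs (r K : ℕ) (f : Conf) : |AA r K f| ≤ (idx r K).card := sum_abs _ fun m => dr_le m f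

theorem SS_abs (r K : ℕ) (f : Conf) : |SS r K f| ≤ (idx r K).card := sum_abs _ fun m => by
  have := abs_mul_le (a := psi r K m) (A := 1)
    (by rw [abs_of_nonneg (psi_mem r K m).1]; exact (psi_mem r K m).2) (dr_le m f)
  rwa [one_mul] at this

theorem meas_AA (r K : ℕ) : Measurable (AA r K) := Finset.measurable_sum _ fun m _ => meas_dr m

theorem meas_SS (r K : ℕ) : Measurable (SS r K) :=
  Finset.measurable_sum _ fun m _ => (meas_dr m).const_mul _

theorem diff_le {u v M : ℝ} {p q : Prop} (hu : |u| ≤ M) (hv : |v| ≤ M) (h : ¬ p → ¬ q → u = v) :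
    |u - v| ≤ 2 * M * (ind p + ind q) := by
  have hM : 0 ≤ M := (abs_nonneg _).trans hu
  have h1 := ind_mem p
  have h2 := ind_mem q
  have h3 : |u - v| ≤ 2 * M := (abs_sub _ _).trans (by linarith)
  by_cases hp : p
  · rw [ind_pos hp]; nlinarith
  by_cases hq : q
  · rw [ind_pos hq]; nlinarith
  rw [h hp hq, sub_self, abs_zero, ind_neg hp, ind_neg hq]
  simp

theorem eps (hN : NullStmt) {μ : Measure Conf} (hμ : Gibbs μ) {r K : ℕ} (hK : 1 ≤ K) {m : Mv}
    (hm : m ∈ idx r K) : psi r K m ^ 2 * ∫ f, dr m f * AA r K f ∂μ ≤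
      4 * (idx r K).card * μ.real {f | Bad r K f} := by
  have := hμ.1
  have hr : (0 : ℝ) ≤ 4 * (idx r K).card * μ.real {f | Bad r K f} := by positivity
  by_cases h0 : (r : ℤ) + 4 * K ≤ nrm m.2.1
  · rw [psi_zero h0]; simpa using hr
  have hsub : ∀ y, y ∉ box 0 (r + 5 * K) → y ∉ tow m := by
    intro y hy h
    obtain ⟨t, ht, rfl⟩ := mem_tow.1 h
    rw [mem_idx] at hm
    have h1 := nrm_near (pt_box0 m.1 m.2.1 ht)
    have h2 := nrm_conv m.1 m.2.1 ht
    rw [mem_box0] at hy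
    omega
  have mB := meas_ind (meas_Bad r K)
  have key : ∫ f, dr m f * AA r K f ∂μ ≤ 4 * (idx r K).card * μ.real {f | Bad r K f} := by
    rw [int_dr hμ m (meas_AA r K) (AA_abs r K)]
    have i1 : Integrable (fun f => ind (Bad r K f)) μ := intg mB fun f => ind_abs _
    have i2 : Integrable (fun f => ind (Av (-1) m f) * ind (Bad r K (flip m f))) μ :=
      intg ((meas_ind (meas_Av _ m)).mul (mB.comp (meas_flip m)))
        fun f => abs_mul_le (ind_abs _) (ind_abs _)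
    have h1 : ∫ f, ind (Av (-1) m f) * ind (Bad r K (flip m f)) ∂μ ≤ μ.real {f | Bad r K f} := by
      rw [rev_row μ hμ m (fun f => ind (Bad r K f)) 1 mB fun f => ind_abs _,
        ← int_ind μ (meas_Bad r K)]
      refine integral_mono (intg ((meas_ind (meas_Av _ m)).mul mB)
        fun f => abs_mul_le (ind_abs _) (ind_abs _)) i1 fun f => ?_
      exact mul_le_of_le_one_left (ind_mem _).1 (ind_mem _).2
    calc _ ≤ ∫ f, 2 * (idx r K).card * (ind (Bad r K f) +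
          ind (Av (-1) m f) * ind (Bad r K (flip m f))) ∂μ := by
          refine integral_mono_ae (intg (B := 1 * ((idx r K).card + (idx r K).card))
            ((meas_ind (meas_Av _ m)).mul ((meas_AA r K).sub ((meas_AA r K).comp (meas_flip m))))
            fun f => abs_mul_le (ind_abs _) ((abs_sub _ _).trans
              (add_le_add (AA_abs _ _ _) (AA_abs _ _ _)))) ((i1.add i2).const_mul _) ?_
          filter_upwards [hμ.2.1] with f hf
          by_cases ha : Av (-1) m f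
          · rw [ind_pos ha, one_mul, one_mul]
            exact (le_abs_self _).trans (diff_le (AA_abs _ _ _) (AA_abs _ _ _) fun b1 b2 =>
              hN r K hK f _ hf (hom_flip hf ha) (fun y hy => (flip_out f (hsub y hy)).symm) b1 b2)
          · rw [ind_neg ha, zero_mul, zero_mul, add_zero]
            have := (ind_mem (Bad r K f)).1
            positivity
      _ ≤ _ := by
          rw [integral_const_mul, integral_add i1 i2, int_ind μ (meas_Bad r K)]
          have : (0 : ℝ) ≤ (idx r K).card := Nat.cast_nonneg _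
          nlinarith
  have h1 := psi_mem r K m
  have h2 : psi r K m ^ 2 ≤ 1 := by nlinarith
  rcases le_total (∫ f, dr m f * AA r K f ∂μ) 0 with h3 | h3
  · exact (mul_nonpos_of_nonneg_of_nonpos (sq_nonneg _) h3).trans hr
  · exact (mul_le_of_le_one_left h3 h2).trans key

theorem far {μ : Measure Conf} (hμ : Gibbs μ) {m n : Mv}
    (h : ∀ y ∈ tow m, y ∉ box n.2.1 (n.2.2 + 1)) : ∫ f, dr m f * dr n f ∂μ = 0 := by
  rw [int_dr hμ m (meas_dr n) (dr_le n)]
  have e : ∀ f, dr n f = dr n (flip m f) := fun f =>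
    dr_local fun y hy => (flip_out f fun hy' => h y hy' hy).symm
  simp only [← e, sub_self, mul_zero, integral_zero]

theorem near {μ : Measure Conf} (hμ : Gibbs μ) (m n : Mv) :
    |∫ f, dr m f * dr n f ∂μ| ≤ μ.real {f | Run m.1 m.2.1 m.2.2 f} := by
  have := hμ.1
  rw [← int_ind μ (meas_Run _ _ _)]
  refine abs_integral_le_integral_abs.trans (integral_mono
    (intg ((meas_dr m).mul (meas_dr n)) fun f => abs_mul_le (dr_le _ _) (dr_le _ _)).abs
    (intg (meas_ind (meas_Run _ _ _)) fun f => ind_abs _) fun f => ?_)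
  have := abs_mul_le (dr_abs m f) (dr_le n f)
  rwa [mul_one] at this

/-- the bound for one pair -/
noncomputable def wt (C p : ℝ) (K : ℕ) (m n : Mv) : ℝ :=
  if n.2.1 ∈ box m.2.1 (m.2.2 + n.2.2 + 1) then
    (((m.2.2 + n.2.2 + 1 : ℕ) : ℝ) / K) ^ 2 * (C * (p ^ m.2.2 * p ^ n.2.2)) else 0

theorem wt_nonneg {C p : ℝ} (hC : 0 ≤ C) (hp : 0 ≤ p) (K : ℕ) (m n : Mv) : 0 ≤ wt C p K m n := by
  unfold wt; split_ifs <;> positivity

theorem wt_comm (C p : ℝ) (K : ℕ) (m n : Mv) : wt C p K m n = wt C p K n m := by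
  have e : n.2.1 ∈ box m.2.1 (m.2.2 + n.2.2 + 1) ↔ m.2.1 ∈ box n.2.1 (n.2.2 + m.2.2 + 1) := by
    simp only [mem_box]; push_cast; omega
  unfold wt
  simp only [e]
  rw [add_comm m.2.2 n.2.2, mul_comm (p ^ m.2.2)]

theorem pair1 {μ : Measure Conf} (hμ : Gibbs μ) {C p : ℝ} (hC : 0 ≤ C) (hp : 0 ≤ p) (hp1 : p ≤ 1)
    {r K : ℕ} (hK : 1 ≤ K) (H : Hyp μ C p r K) {m n : Mv} (hm : m ∈ idx r K) (hn : n ∈ idx r K)
    (h : (r : ℤ) + 3 * K < nrm n.2.1) :
    -((psi r K m - psi r K n) ^ 2 * ∫ f, dr m f * dr n f ∂μ) ≤ wt C p K m n := by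
  by_cases hf : ∀ y ∈ tow m, y ∉ box n.2.1 (n.2.2 + 1)
  · rw [far hμ hf]; simpa using wt_nonneg hC hp K m n
  push Not at hf
  obtain ⟨y, hy, hy'⟩ := hf
  obtain ⟨t, ht, rfl⟩ := mem_tow.1 hy
  rw [mem_idx] at hm hn
  have g1 : n.2.1 ∈ box m.2.1 (m.2.2 + n.2.2 + 1) ∧ Ann r K m.1 m.2.1 m.2.2 ∧
      Ann r K n.1 n.2.1 n.2.2 := by
    have h1 := nrm_near hy'
    have h2 := nrm_conv m.1 m.2.1 ht
    refine ⟨?_, fun u hu => ?_, fun u hu => ?_⟩
    · have h3 := pt_box0 m.1 m.2.1 ht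
      rw [mem_box] at h3 hy' ⊢
      omega
    · have h3 := nrm_near (pt_box m.1 m.2.1 ht hu)
      have h4 := nrm_conv m.1 m.2.1 hu
      omega
    · have h3 := nrm_near (pt_box0 n.1 n.2.1 hu)
      omega
  have h1 := (near hμ m n).trans (H _ _ _ g1.2.1)
  have h2 := (near hμ n m).trans (H _ _ _ g1.2.2)
  simp only [mul_comm (dr n _)] at h2
  have h3 : |∫ f, dr m f * dr n f ∂μ| ≤ C * (p ^ m.2.2 * p ^ n.2.2) := by
    rcases le_total m.2.2 n.2.2 with e | e
    · exact h2.trans (mul_le_mul_of_nonneg_left (mul_le_mul_of_nonneg_right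
        (pow_le_pow_of_le_one hp hp1 e) (by positivity)) hC)
    · exact h1.trans (mul_le_mul_of_nonneg_left (mul_le_mul_of_nonneg_left
        (pow_le_pow_of_le_one hp hp1 e) (by positivity)) hC)
  rw [wt, if_pos g1.1, ← mul_neg]
  exact (mul_le_mul_of_nonneg_left ((neg_le_abs _).trans h3) (sq_nonneg _)).trans
    (mul_le_mul_of_nonneg_right
      (sq_le_sq' (abs_le.1 (psi_lip g1.1)).1 (abs_le.1 (psi_lip g1.1)).2) (by positivity))

theorem pair {μ : Measure Conf} (hμ : Gibbs μ) {C p : ℝ} (hC : 0 ≤ C) (hp : 0 ≤ p) (hp1 : p ≤ 1)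
    {r K : ℕ} (hK : 1 ≤ K) (H : Hyp μ C p r K) {m n : Mv} (hm : m ∈ idx r K) (hn : n ∈ idx r K) :
    -((psi r K m - psi r K n) ^ 2 * ∫ f, dr m f * dr n f ∂μ) ≤ wt C p K m n := by
  by_cases h1 : (r : ℤ) + 3 * K < nrm n.2.1
  · exact pair1 hμ hC hp hp1 hK H hm hn h1
  by_cases h2 : (r : ℤ) + 3 * K < nrm m.2.1
  · have := pair1 hμ hC hp hp1 hK H hn hm h2
    rw [wt_comm, ← neg_sub, neg_sq] at this
    simpa only [mul_comm (dr n _)] using this
  rw [psi_one hK (not_lt.1 h1), psi_one hK (not_lt.1 h2)]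
  simpa using wt_nonneg hC hp K m n

/-- the summable weight -/
def gw (p : ℝ) (l : ℕ) : ℝ := ((l : ℝ) + 1) ^ 4 * p ^ l

theorem gw_bdd {p : ℝ} (hp : 0 ≤ p) (hp1 : p < 1) :
    ∃ W : ℝ, ∀ N, ∑ l ∈ range N, gw p l ≤ W := by
  have h : ∀ k : ℕ, Summable fun n : ℕ => (n : ℝ) ^ k * p ^ n := fun k =>
    summable_pow_mul_geometric_of_norm_lt_one k (by rwa [Real.norm_eq_abs, abs_of_nonneg hp])
  have hs : Summable (gw p) := by
    refine ((((h 4).add ((h 3).mul_left 4)).add ((h 2).mul_left 6)).add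
      (((h 1).mul_left 4).add (h 0))).congr fun n => ?_
    unfold gw; ring
  exact ⟨_, fun N => hs.sum_le_tsum _ fun l _ => by unfold gw; positivity⟩

theorem wt_sum {C p W : ℝ} (hC : 0 ≤ C) (hp : 0 ≤ p) (hW : ∀ N, ∑ l ∈ range N, gw p l ≤ W)
    (r K : ℕ) : ∑ m ∈ idx r K, ∑ n ∈ idx r K, wt C p K m n ≤
      36 * C * W ^ 2 * ((2 * (r + 9 * K) + 1) / K) ^ 2 := by
  set Q := box 0 (r + 9 * K) with hQ
  set N := 2 * r + 2 * K + 1 with hN
  set U : Finset Mv := univ ×ˢ Q ×ˢ range N with hU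
  have hsub : idx r K ⊆ U := filter_subset _ _
  have hg : ∀ l, 0 ≤ gw p l := fun l => by unfold gw; positivity
  have hW0 : 0 ≤ W := by simpa using hW 0
  have h1 : ∀ m : Mv, ∑ n ∈ idx r K, wt C p K m n ≤ 18 * C / K ^ 2 * W * gw p m.2.2 := by
    intro m
    refine (sum_le_sum_of_subset_of_nonneg hsub fun n _ _ => wt_nonneg hC hp K m n).trans ?_
    have h2 : ∀ (b : Bool) (l : ℕ), ∑ x ∈ Q, wt C p K m (b, x, l) ≤
        9 * C / K ^ 2 * gw p m.2.2 * gw p l := by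
      intro b l
      simp only [wt]
      rw [← sum_filter, sum_const, nsmul_eq_mul]
      have h3 : ((Q.filter fun x => x ∈ box m.2.1 (m.2.2 + l + 1)).card : ℝ) ≤
          (3 * ((m.2.2 + 1) * (l + 1))) ^ 2 := by
        have h4 := card_le_card (s := Q.filter fun x => x ∈ box m.2.1 (m.2.2 + l + 1))
          (t := box m.2.1 (m.2.2 + l + 1)) fun x hx => (mem_filter.1 hx).2
        rw [card_box] at h4
        have h5 : 2 * (m.2.2 + l + 1) + 1 ≤ 3 * ((m.2.2 + 1) * (l + 1)) := by nlinarith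
        exact_mod_cast h4.trans (Nat.pow_le_pow_left h5 2)
      have h6 : (((m.2.2 + l + 1 : ℕ) : ℝ) / K) ^ 2 ≤ (((m.2.2 + 1) * (l + 1)) / K) ^ 2 := by
        have h7 : m.2.2 + l + 1 ≤ (m.2.2 + 1) * (l + 1) := by nlinarith
        have h8 : ((m.2.2 + l + 1 : ℕ) : ℝ) ≤ (m.2.2 + 1) * (l + 1) := by exact_mod_cast h7
        gcongr
      refine (mul_le_mul h3 (mul_le_mul_of_nonneg_right h6 (by positivity)) (by positivity)
        (by positivity)).trans (le_of_eq ?_)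
      unfold gw; ring
    rw [hU, sum_product]
    simp only [sum_product_right]
    refine (sum_le_sum fun b _ => sum_le_sum fun l _ => h2 b l).trans ?_
    rw [sum_const, card_univ, Fintype.card_bool, ← mul_sum, nsmul_eq_mul]
    have := mul_le_mul_of_nonneg_left (hW N) (a := 9 * C / K ^ 2 * gw p m.2.2)
      (mul_nonneg (by positivity) (hg _))
    push_cast
    exact (mul_le_mul_of_nonneg_left this zero_le_two).trans (le_of_eq (by ring))
  refine (sum_le_sum fun m _ => h1 m).trans ?_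
  refine (sum_le_sum_of_subset_of_nonneg hsub fun m _ _ =>
    mul_nonneg (by positivity) (hg _)).trans ?_
  rw [hU, sum_product]
  simp only [sum_product, sum_const, card_univ, Fintype.card_bool, ← mul_sum, nsmul_eq_mul, hQ,
    card_box]
  have := mul_le_mul_of_nonneg_left (hW N)
    (a := 2 * ((2 * (r + 9 * K) + 1) ^ 2 * (18 * C / K ^ 2 * W))) (by positivity)
  push_cast
  refine le_trans (le_of_eq (by ring)) (this.trans (le_of_eq (by ring)))

/-- the energy bound -/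
theorem energy (hN : NullStmt) {μ : Measure Conf} (hμ : Gibbs μ) {C p W : ℝ} (hC : 0 ≤ C)
    (hp : 0 ≤ p) (hp1 : p ≤ 1) (hW : ∀ N, ∑ l ∈ range N, gw p l ≤ W) {r K : ℕ} (hK : 1 ≤ K)
    (H : Hyp μ C p r K) : ∫ f, SS r K f ^ 2 ∂μ ≤ 18 * C * W ^ 2 * ((2 * (r + 9 * K) + 1) / K) ^ 2 +
      4 * ((idx r K).card ^ 2 * μ.real {f | Bad r K f}) := by
  have := hμ.1
  have i1 : ∀ m, Integrable (fun f => psi r K m ^ 2 * (dr m f * AA r K f)) μ := fun m =>
    (intg ((meas_dr m).mul (meas_AA r K)) fun f => abs_mul_le (dr_le _ _) (AA_abs _ _ _)).const_mul _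
  have i2 : ∀ m n, Integrable (fun f => -((psi r K m - psi r K n) ^ 2 * (dr m f * dr n f))) μ :=
    fun m n => ((intg ((meas_dr m).mul (meas_dr n))
      fun f => abs_mul_le (dr_le _ _) (dr_le _ _)).const_mul _).neg
  have e : ∀ f, SS r K f ^ 2 = ∑ m ∈ idx r K, psi r K m ^ 2 * (dr m f * AA r K f) +
      1 / 2 * ∑ m ∈ idx r K, ∑ n ∈ idx r K, -((psi r K m - psi r K n) ^ 2 * (dr m f * dr n f)) :=
    fun f => alg _ _ _
  simp only [e]
  rw [integral_add (integrable_finsetSum _ fun m _ => i1 m) ((integrable_finsetSum _ fun m _ =>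
      integrable_finsetSum _ fun n _ => i2 m n).const_mul _), integral_const_mul,
    integral_finsetSum _ fun m _ => i1 m,
    integral_finsetSum _ fun m _ => integrable_finsetSum _ fun n _ => i2 m n]
  have h1 : ∑ m ∈ idx r K, ∫ f, psi r K m ^ 2 * (dr m f * AA r K f) ∂μ ≤
      4 * ((idx r K).card ^ 2 * μ.real {f | Bad r K f}) := by
    refine (sum_le_sum fun m hm => (integral_const_mul _ _).trans_le (eps hN hμ hK hm)).trans ?_
    rw [sum_const, nsmul_eq_mul]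
    exact le_of_eq (by ring)
  have h2 : ∑ m ∈ idx r K, ∫ f, ∑ n ∈ idx r K,
      -((psi r K m - psi r K n) ^ 2 * (dr m f * dr n f)) ∂μ ≤ _ :=
    (sum_le_sum fun m hm => by
      rw [integral_finsetSum _ fun n _ => i2 m n]
      refine sum_le_sum fun n hn => ?_
      rw [integral_neg, integral_const_mul]
      exact pair hμ hC hp hp1 hK H hm hn).trans (wt_sum hC hp hW r K)
  linarith

end Pool.Agent.MP_151d89_pr.H30
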