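import Pool.Agent.MP_151d89_pr.H30.Spec
import Pool.Agent.MP_151d89_pr.H5.Law

/-!
Exponential tails of runs.
-/

set_option autoImplicit false
open MeasureTheory Filter Finset Topology

namespace Pool.Agent.MP_151d89_pr.H30
open Pool.Agent.MP_151d89_pr.H82 Pool.Agent.MP_151d89_pr.H33 Pool.Agent.MP_151d89_pr.H67
open Classical

namespace RunAux

/-- nearest neighbour paths -/
def Adj (a : ℕ → ℤ × ℤ) : Prop :=
  ∀ j, |(a (j + 1)).1 - (a j).1| + |(a (j + 1)).2 - (a j).2| = 1

/-- the run starting at height s -/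
def A (a : ℕ → ℤ × ℤ) (s : ℤ) (j : ℕ) : Set Conf := {f | ∀ t : ℕ, t ≤ j → f (a t) = s + t}

/-- a descending edge -/
def Df (a : ℕ → ℤ × ℤ) (j : ℕ) : Set Conf := {f | f (a (j + 1)) = f (a j) - 1}

/-- a low descending edge -/
def Lo (a : ℕ → ℤ × ℤ) (s : ℤ) (j : ℕ) : Set Conf :=
  {f | f (a (j + 1)) = f (a j) - 1 ∧ f (a j) ≤ s + j + 1}

theorem meas2 (x y : ℤ × ℤ) (p : ℤ → ℤ → Prop) : MeasurableSet {f : Conf | p (f x) (f y)} := by
  have h : Measurable fun f : Conf => (f x, f y) :=
    (measurable_pi_apply x).prodMk (measurable_pi_apply y)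
  exact h (MeasurableSet.of_discrete (s := {q : ℤ × ℤ | p q.1 q.2}))

theorem meas_A (a : ℕ → ℤ × ℤ) (s : ℤ) (j : ℕ) : MeasurableSet (A a s j) := by
  have e : A a s j = ⋂ t : ℕ, {f : Conf | t ≤ j → f (a t) = s + t} := by
    ext f; simp [A]
  rw [e]
  exact MeasurableSet.iInter fun t => meas2 (a t) (a t) fun u _ => t ≤ j → u = s + t

theorem meas_Df (a : ℕ → ℤ × ℤ) (j : ℕ) : MeasurableSet (Df a j) :=
  meas2 (a (j + 1)) (a j) fun u v => u = v - 1

theorem meas_Lo (a : ℕ → ℤ × ℤ) (s : ℤ) (j : ℕ) : MeasurableSet (Lo a s j) :=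
  meas2 (a (j + 1)) (a j) fun u v => u = v - 1 ∧ v ≤ s + j + 1

theorem edge {a : ℕ → ℤ × ℤ} (ha : Adj a) {f : Conf} (hf : Hom f) (j : ℕ) :
    f (a (j + 1)) = f (a j) + 1 ∨ f (a (j + 1)) = f (a j) - 1 := by
  have h := hf _ _ (ha j)
  rw [abs_eq (by norm_num)] at h
  omega

theorem path_lip {a : ℕ → ℤ × ℤ} (ha : Adj a) {f : Conf} (hf : Hom f) (t n : ℕ) :
    f (a (t + n)) ≤ f (a t) + n := by
  induction n with
  | zero => simp
  | succ n ih =>
    have h := edge ha hf (t + n)
    rw [← add_assoc]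
    push_cast
    omega

/-- the fillings in an event -/
noncomputable def FI (Λ : Finset (ℤ × ℤ)) (g : Conf) (S : Set Conf) : Finset Conf :=
  (FS Λ g).filter (· ∈ S)

theorem mem_FI {Λ : Finset (ℤ × ℤ)} {g u : Conf} {S : Set Conf} :
    u ∈ FI Λ g S ↔ u ∈ FS Λ g ∧ u ∈ S := mem_filter

/-- shifting to a given height at y -/
def sh (y : ℤ × ℤ) (c : ℤ) (v : Conf) : Conf := fun z => v z + (c - v y)

theorem pair {a : ℕ → ℤ × ℤ} (ha : Adj a) {Λ : Finset (ℤ × ℤ)} {g u v : Conf} {s : ℤ} {j : ℕ}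
    (hu : u ∈ FI Λ g (A a s j)) (hv : v ∈ FI Λ g (Lo a s j)) :
    u ⊓ sh (a j) (s + j) v ∈ FI Λ g (A a s j ∩ Df a j) ∧
      u ⊔ sh (a j) (s + j) v ∈ (FS Λ g).image (sh (a j) (s + j)) := by
  obtain ⟨z, hz⟩ := Infinite.exists_notMem_finset Λ
  obtain ⟨hu1, hu2⟩ := mem_FI.1 hu
  obtain ⟨hv1, hv2, hv3⟩ := mem_FI.1 hv
  obtain ⟨hu3, hu4⟩ := mem_FS.1 hu1
  obtain ⟨hv4, hv5⟩ := mem_FS.1 hv1
  have hj := hu2 j le_rfl
  have hp := par hu3 hv4 (z := z) (by rw [hu4 z hz, hv5 z hz]; simp) (a j)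
  have hc0 : 0 ≤ s + j - v (a j) := by omega
  have hw1 : Hom (sh (a j) (s + j) v) := hom_shift hv4 _
  have hq : (u (a j) - sh (a j) (s + j) v (a j)) % 2 = 0 := by simp only [sh]; omega
  constructor
  · refine mem_FI.2 ⟨mem_FS.2 ⟨hom_inf hu3 hw1 hq, fun x hx => ?_⟩, fun t ht => ?_, ?_⟩
    · simp only [Pi.inf_apply, sh, hu4 x hx, hv5 x hx]
      omega
    · obtain ⟨n, rfl⟩ := Nat.exists_eq_add_of_le ht
      have h1 := path_lip ha hv4 t n
      have h2 := hu2 t ht
      simp only [Pi.inf_apply, sh]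
      push_cast at *
      omega
    · have h1 := edge ha hu3 j
      simp only [Df, Set.mem_ofPred_eq, Pi.inf_apply, sh]
      omega
  · refine mem_image.2 ⟨fun y => (u ⊔ sh (a j) (s + j) v) y + -(s + j - v (a j)),
      mem_FS.2 ⟨hom_shift (hom_sup hu3 hw1 hq) _, fun x hx => ?_⟩, funext fun y => ?_⟩
    · simp only [Pi.sup_apply, sh, hu4 x hx, hv5 x hx]
      omega
    · simp only [Pi.sup_apply, sh]
      omega

/-- the finite volume inequality -/
theorem fin_step {a : ℕ → ℤ × ℤ} (ha : Adj a) (Λ : Finset (ℤ × ℤ)) (g : Conf) (s : ℤ) (j : ℕ) :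
    (FI Λ g (A a s j)).card * (FI Λ g (Lo a s j)).card ≤
      (FI Λ g (A a s j ∩ Df a j)).card * (FS Λ g).card := by
  obtain ⟨z, hz⟩ := Infinite.exists_notMem_finset Λ
  have hinj : Set.InjOn (sh (a j) (s + j)) (FI Λ g (Lo a s j)) := by
    intro v hv w hw e
    have h1 := (mem_FS.1 (mem_FI.1 (mem_coe.1 hv)).1).2 z hz
    have h2 := (mem_FS.1 (mem_FI.1 (mem_coe.1 hw)).1).2 z hz
    have h3 := congrFun e z
    funext y
    have h4 := congrFun e y
    simp only [sh] at h3 h4
    omega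
  rw [← card_image_of_injOn hinj]
  refine (le_card_infs_mul_card_sups _ _).trans (Nat.mul_le_mul (card_le_card ?_)
    ((card_le_card (t := (FS Λ g).image (sh (a j) (s + j))) ?_).trans card_image_le))
  · intro c hc
    obtain ⟨u, hu, w, hw, rfl⟩ := mem_infs.1 hc
    obtain ⟨v, hv, rfl⟩ := mem_image.1 hw
    exact (pair ha hu hv).1
  · intro c hc
    obtain ⟨u, hu, w, hw, rfl⟩ := mem_sups.1 hc
    obtain ⟨v, hv, rfl⟩ := mem_image.1 hw
    exact (pair ha hu hv).2

theorem av_ind (Λ : Finset (ℤ × ℤ)) (g : Conf) (S : Set Conf) :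
    av Λ (S.indicator fun _ => (1 : ℝ)) g = (FI Λ g S).card / (FS Λ g).card := by
  unfold av FI
  congr 1
  simp only [Set.indicator_apply]
  rw [sum_boole]

/-- passing to infinite volume -/
theorem transfer {μ : Measure Conf} (hμ : Gibbs μ) (hT : Triv μ) {P Q R : Set Conf}
    (hP : MeasurableSet P) (hQ : MeasurableSet Q) (hR : MeasurableSet R)
    (h : ∀ (Λ : Finset (ℤ × ℤ)) (g : Conf),
      (FI Λ g P).card * (FI Λ g Q).card ≤ (FI Λ g R).card * (FS Λ g).card) :
    μ.real P * μ.real Q ≤ μ.real R := by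
  have := hμ.1
  have hb : ∀ (S : Set Conf) f, |S.indicator (fun _ => (1 : ℝ)) f| ≤ 1 := fun S f => by
    rw [abs_of_nonneg (ind_bd S f).1]; exact (ind_bd S f).2
  have hi : ∀ {S : Set Conf}, MeasurableSet S →
      ∫ f, S.indicator (fun _ => (1 : ℝ)) f ∂μ = μ.real S := fun hS => by
    rw [integral_indicator hS]
    simp only [integral_const, smul_eq_mul, mul_one, measureReal_restrict_apply_univ]
  obtain ⟨ns, h1⟩ := tendsto_av_mul hμ hT (measurable_const.indicator hP)
    (measurable_const.indicator hQ) (hb P) (hb Q)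
  rw [hi hP, hi hQ] at h1
  refine le_of_tendsto' h1 fun i => ?_
  rw [← hi hR, ← int_av hμ (box 0 (ns i)) (measurable_const.indicator hR) (hb R)]
  refine integral_mono_ae (intg ((meas_av _ (measurable_const.indicator hP)).mul
    (meas_av _ (measurable_const.indicator hQ)))
    fun f => abs_mul_le (av_abs (hb P) f) (av_abs (hb Q) f))
    (intg (meas_av _ (measurable_const.indicator hR)) (av_abs (hb R))) ?_
  filter_upwards [hμ.2.1] with f hf
  have hp := card_pos (box 0 (ns i)) hf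
  have h2 : ((FI (box 0 (ns i)) f P).card : ℝ) * (FI (box 0 (ns i)) f Q).card ≤
      (FI (box 0 (ns i)) f R).card * (FS (box 0 (ns i)) f).card := by
    exact_mod_cast h _ f
  rw [av_ind, av_ind, av_ind, div_mul_div_comm, div_le_div_iff₀ (mul_pos hp hp) hp]
  nlinarith

/-- the one sided bound -/
theorem one_side {μ : Measure Conf} (hμ : Gibbs μ) (hT : Triv μ) {a : ℕ → ℤ × ℤ} (ha : Adj a)
    (s : ℤ) (l : ℕ) : μ.real (A a s l) ≤
      μ.real {f | f (a 0) = s} * Real.exp (-∑ j ∈ range l, μ.real (Lo a s j)) := by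
  have := hμ.1
  induction l with
  | zero =>
    rw [range_zero, sum_empty, neg_zero, Real.exp_zero, mul_one]
    exact measureReal_mono fun f hf => by simpa using hf 0 le_rfl
  | succ l ih =>
    have h1 := transfer hμ hT (meas_A a s l) (meas_Lo a s l)
      ((meas_A a s l).inter (meas_Df a l)) fun Λ g => fin_step ha Λ g s l
    have h2 := measureReal_inter_add_sdiff (μ := μ) (s := A a s l) (meas_Df a l)
    have h3 : μ.real (A a s (l + 1)) ≤ μ.real (A a s l \ Df a l) := by
      refine measureReal_mono fun f hf => ⟨fun t ht => hf t (by omega), fun h => ?_⟩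
      have e1 := hf l (by omega)
      have e2 := hf (l + 1) le_rfl
      simp only [Df, Set.mem_ofPred_eq] at h
      push_cast at e2
      omega
    have h4 := Real.add_one_le_exp (-μ.real (Lo a s l))
    have h5 : 0 ≤ μ.real (A a s l) := measureReal_nonneg
    rw [sum_range_succ, neg_add, Real.exp_add, ← mul_assoc]
    calc μ.real (A a s (l + 1)) ≤ μ.real (A a s l) * (-μ.real (Lo a s l) + 1) := by linarith
      _ ≤ μ.real (A a s l) * Real.exp (-μ.real (Lo a s l)) := by gcongr
      _ ≤ _ := by gcongr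

theorem pt_adj (b : Bool) (x : ℤ × ℤ) (u v : ℤ) (h : |u - v| = 1) :
    |(pt b x u).1 - (pt b x v).1| + |(pt b x u).2 - (pt b x v).2| = 1 := by
  cases b <;> simpa [pt, dir] using h

theorem pt_pt (b : Bool) (x : ℤ × ℤ) (u v : ℤ) : pt b (pt b x u) v = pt b x (u + v) := by
  simp only [pt, add_smul, add_assoc]

/-- the two sided bound at a fixed starting height -/
theorem two_side {μ : Measure Conf} (hμ : Gibbs μ) (hT : Triv μ) (b : Bool) (x : ℤ × ℤ) (s : ℤ)
    (l : ℕ) : μ.real (A (fun t => pt b x t) s l) ≤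
      (μ.real {f | f (pt b x 0) = s} + μ.real {f | f (pt b x l) = s + l}) *
        Real.exp (-(∑ j ∈ range l, μ.real (Df (fun t => pt b x t) j)) / 2) := by
  have := hμ.1
  set a : ℕ → ℤ × ℤ := fun t => pt b x t with ha'
  set a' : ℕ → ℤ × ℤ := fun t => pt b x (l - t) with ha''
  have ha : Adj a := fun j => pt_adj b x _ _ (by push_cast; simp)
  have hb : Adj a' := fun j => pt_adj b x _ _ (by push_cast; simp)
  have hm := FinalAux.meas_T (Equiv.refl (ℤ × ℤ)) (-1) 0
  have h1 := one_side hμ hT ha s l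
  have h2 := one_side (FinalAux.gibbs_T hμ (φ := Equiv.refl _) (fun _ _ => rfl) (ε := -1)
    (by norm_num) 0) (H5.triv_T hT _ _ _) hb (-s - l) l
  have hmap : ∀ {S : Set Conf}, MeasurableSet S →
      (μ.map (FinalAux.T (Equiv.refl (ℤ × ℤ)) (-1) 0)).real S =
        μ.real (FinalAux.T (Equiv.refl (ℤ × ℤ)) (-1) 0 ⁻¹' S) := fun hS => by
    simp only [Measure.real, Measure.map_apply hm hS]
  rw [hmap (meas_A _ _ _), hmap (meas2 (a' 0) (a' 0) fun u _ => u = -s - l),
    sum_congr rfl fun j _ => hmap (meas_Lo a' (-s - l) j), ← sum_range_reflect] at h2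
  have e1 : μ.real (A a s l) ≤
      μ.real (FinalAux.T (Equiv.refl (ℤ × ℤ)) (-1) 0 ⁻¹' A a' (-s - l) l) := by
    refine measureReal_mono fun f hf t ht => ?_
    have h := hf (l - t) (by omega)
    simp only [ha', Nat.cast_sub ht] at h
    simp only [FinalAux.T, ha'', Equiv.refl_apply, h]
    ring
  have e2 : FinalAux.T (Equiv.refl (ℤ × ℤ)) (-1) 0 ⁻¹' {f | f (a' 0) = -s - l} =
      {f | f (pt b x l) = s + l} := by
    ext f
    simp only [FinalAux.T, ha'', Equiv.refl_apply, Set.mem_preimage, Set.mem_ofPred_eq,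
      Nat.cast_zero, sub_zero]
    omega
  rw [e2] at h2
  have e3 : ∑ j ∈ range l, μ.real (Df a j) ≤ ∑ j ∈ range l, μ.real (Lo a s j) +
      ∑ j ∈ range l, μ.real
        (FinalAux.T (Equiv.refl (ℤ × ℤ)) (-1) 0 ⁻¹' Lo a' (-s - l) (l - 1 - j)) := by
    rw [← sum_add_distrib]
    refine sum_le_sum fun j hj => le_trans (measureReal_mono fun f hf => ?_)
      (measureReal_union_le _ _)
    have hj' := mem_range.1 hj
    have c1 : ((l - 1 - j : ℕ) : ℤ) = l - 1 - j := by omega
    have c2 : (l : ℤ) - (l - 1 - j + 1) = j := by ring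
    have c3 : (l : ℤ) - (l - 1 - j) = j + 1 := by ring
    simp only [Df, ha', Set.mem_ofPred_eq, Nat.cast_add, Nat.cast_one] at hf
    simp only [Lo, ha', ha'', FinalAux.T, Equiv.refl_apply, Set.mem_union, Set.mem_preimage,
      Set.mem_ofPred_eq, Nat.cast_add, Nat.cast_one, c1, c2, c3]
    omega
  have p1 : 0 ≤ μ.real {f | f (pt b x 0) = s} := measureReal_nonneg
  have p2 : 0 ≤ μ.real {f | f (pt b x l) = s + l} := measureReal_nonneg
  have p3 := Real.exp_pos (-(∑ j ∈ range l, μ.real (Df a j)) / 2)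
  rw [add_mul]
  rcases le_total ((∑ j ∈ range l, μ.real (Df a j)) / 2) (∑ j ∈ range l, μ.real (Lo a s j))
    with h | h
  · refine h1.trans (le_add_of_le_of_nonneg (mul_le_mul_of_nonneg_left
      (Real.exp_le_exp.2 (by linarith)) p1) (by positivity))
  · refine e1.trans (h2.trans (le_add_of_nonneg_of_le (by positivity)
      (mul_le_mul_of_nonneg_left (Real.exp_le_exp.2 (by linarith)) p2)))

theorem law_sum {μ : Measure Conf} [IsProbabilityMeasure μ] (y : ℤ × ℤ) (c : ℤ) :
    HasSum (fun s : ℤ => μ.real {f | f y = s + c}) 1 := by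
  have h := hasSum_integral_iUnion (μ := μ) (f := fun _ => (1 : ℝ))
    (s := fun s : ℤ => {f : Conf | f y = s + c})
    (fun s => meas2 y y fun u _ => u = s + c)
    (fun s t hst => Set.disjoint_left.2 fun f h h' => hst (by
      simp only [Set.mem_ofPred_eq] at h h'; omega)) (integrable_const _).integrableOn
  have hu : ⋃ s : ℤ, {f : Conf | f y = s + c} = Set.univ :=
    Set.eq_univ_of_forall fun f => Set.mem_iUnion.2 ⟨f y - c, by simp⟩
  rw [hu] at h
  simpa using h

/-- the bound in terms of the expected number of descending edges -/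
theorem run_le {μ : Measure Conf} (hμ : Gibbs μ) (hT : Triv μ) (b : Bool) (x : ℤ × ℤ) (l : ℕ) :
    μ.real {f | Run b x l f} ≤
      2 * Real.exp (-(∑ j ∈ range l, μ.real (Df (fun t => pt b x t) j)) / 2) := by
  have := hμ.1
  have h := hasSum_integral_iUnion (μ := μ) (f := fun _ => (1 : ℝ))
    (s := fun s : ℤ => A (fun t => pt b x t) s l) (fun s => meas_A _ s l)
    (fun s t hst => Set.disjoint_left.2 fun f h h' => hst (by
      have h1 := h 0 (Nat.zero_le _)
      have h2 := h' 0 (Nat.zero_le _)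
      omega)) (integrable_const _).integrableOn
  simp only [integral_const, smul_eq_mul, mul_one, measureReal_restrict_apply_univ] at h
  have h1 := law_sum (μ := μ) (pt b x 0) 0
  simp only [add_zero] at h1
  have h2 := (h1.add (law_sum (μ := μ) (pt b x l) l)).mul_right
    (Real.exp (-(∑ j ∈ range l, μ.real (Df (fun t => pt b x t) j)) / 2))
  rw [one_add_one_eq_two] at h2
  exact le_trans (measureReal_mono fun f hf => Set.mem_iUnion.2 ⟨f x, hf⟩)
    (hasSum_le (fun s => two_side hμ hT b x s l) h h2)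

theorem block {μ : Measure Conf} (hμ : Gibbs μ) (b : Bool) (x : ℤ × ℤ) (t L : ℕ) :
    1 - μ.real {f | f (pt b (pt b x t) L) = f (pt b x t) + L} ≤
      ∑ i ∈ range L, μ.real (Df (fun t => pt b x t) (t + i)) := by
  have := hμ.1
  have ha : Adj fun t : ℕ => pt b x t := fun j => pt_adj b x _ _ (by push_cast; simp)
  rw [← probReal_compl_eq_one_sub (meas2 (pt b (pt b x t) L) (pt b x t) fun u v => u = v + L)]
  refine le_trans ?_ (measureReal_biUnion_finset_le (range L) _)
  refine ENNReal.toReal_mono (measure_ne_top _ _) (measure_mono_ae ?_)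
  filter_upwards [hμ.2.1] with f hf h
  by_contra hn
  refine h ?_
  have key : ∀ n : ℕ, n ≤ L → f (pt b x (t + n : ℕ)) = f (pt b x t) + n := by
    intro n
    induction n with
    | zero => simp
    | succ n ih =>
      intro h1
      have h2 := ih (by omega)
      rcases edge ha hf (t + n) with h3 | h3
      · rw [← add_assoc]
        rw [h3, h2]
        push_cast
        ring
      · exact absurd (Set.mem_biUnion (mem_coe.2 (mem_range.2 (by omega : n < L))) h3) hn
  have h4 := key L le_rfl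
  rw [Nat.cast_add, ← pt_pt] at h4
  exact h4

end RunAux

open RunAux in
theorem run_row : RunStmt := by
  intro L θ hθ
  rcases Nat.eq_zero_or_pos L with rfl | hL
  · refine ⟨0, 0, le_rfl, le_rfl, one_pos, fun μ hμ _ b x l h => ?_⟩
    have := hμ.1
    have h1 := h 0 (Nat.zero_le _)
    simp [pt] at h1
    linarith
  have hL' : (0 : ℝ) < L := Nat.cast_pos.2 hL
  refine ⟨2 * Real.exp ((1 - θ) / 2), Real.exp (-((1 - θ) / (2 * L))), by positivity,
    (Real.exp_pos _).le, Real.exp_lt_one_iff.2 (neg_neg_of_pos (div_pos (by linarith) (by positivity))),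
    fun μ hμ hT b x l h => (run_le hμ hT b x l).trans ?_⟩
  have key : ∀ k : ℕ, k * L ≤ l →
      k * (1 - θ) ≤ ∑ j ∈ range (k * L), μ.real (Df (fun t => pt b x t) j) := by
    intro k
    induction k with
    | zero => simp
    | succ k ih =>
      intro hk
      rw [Nat.succ_mul] at hk ⊢
      have h1 := ih (by omega)
      have h2 := h (k * L) hk
      have h3 := block hμ b x (k * L) L
      rw [sum_range_add]
      push_cast at *
      linarith
  have h1 := key (l / L) (Nat.div_mul_le_self l L)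
  have h2 : ∑ j ∈ range (l / L * L), μ.real (Df (fun t => pt b x t) j) ≤
      ∑ j ∈ range l, μ.real (Df (fun t => pt b x t) j) :=
    sum_le_sum_of_subset_of_nonneg (range_subset_range.2 (Nat.div_mul_le_self l L))
      fun _ _ _ => measureReal_nonneg
  have h3 : (l : ℝ) / L ≤ (l / L : ℕ) + 1 := by
    rw [div_le_iff₀ hL']
    have h4 := Nat.lt_div_mul_add (a := l) hL
    have h5 : (l : ℝ) ≤ ((l / L * L + L : ℕ) : ℝ) := Nat.cast_le.2 h4.le
    push_cast at h5
    linarith
  rw [mul_assoc, ← Real.exp_nat_mul, ← Real.exp_add]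
  refine mul_le_mul_of_nonneg_left (Real.exp_le_exp.2 ?_) (by norm_num)
  have h6 : (l : ℝ) * -((1 - θ) / (2 * L)) = -(l / L * (1 - θ)) / 2 := by
    field_simp
  have h7 : (l : ℝ) / L * (1 - θ) ≤ ((l / L : ℕ) + 1) * (1 - θ) :=
    mul_le_mul_of_nonneg_right h3 (by linarith)
  rw [h6]
  linarith

end Pool.Agent.MP_151d89_pr.H30
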