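import Pool.Agent.MP_151d89_pr.H30.Core
import Pool.Agent.MP_151d89_pr.H30.Null
import Pool.Agent.MP_151d89_pr.H30.Run
import Pool.Agent.MP_151d89_pr.H30.Dirac

/-!
Uniformly liquid annuli force a point mass.
-/

set_option autoImplicit false
open MeasureTheory Filter Topology

namespace Pool.Agent.MP_151d89_pr.H30
open Pool.Agent.MP_151d89_pr.H82 Pool.Agent.MP_151d89_pr.H33 Pool.Agent.MP_151d89_pr.H67
open FinalAux

theorem dirac_axes {μ : Measure Conf} (hμ : Gibbs μ) (hT : Triv μ) (c L : ℕ) {θ : ℝ} (hθ : θ < 1)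
    (H : ∀ n : ℕ, ∃ r w : ℕ, n ≤ r ∧ r ≤ c * w ∧ ∀ (b : Bool) (x : ℤ × ℤ), (r : ℤ) ≤ nrm x →
      nrm x ≤ r + w → μ.real {f | f (pt b x L) = f x + L} ≤ θ) :
    ∃ f₀ : Conf, ∀ᵐ f ∂μ, f = f₀ := by
  have := hμ.1
  obtain ⟨C, q, hC, hq, hq1, hR⟩ := run_row L θ hθ
  have h1 := core null_row hμ hT hC (Real.sqrt_nonneg q) ((Real.sqrt_lt' one_pos).2 (by simpa))
    (19 * c) fun n => by
      obtain ⟨r, w, h1, h2, h3⟩ := H (c * (10 * n + 10) + n + 1)
      have h4 : 10 * n + 10 < w := Nat.lt_of_mul_lt_mul_left (a := c) (by omega)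
      refine ⟨r, w / 10, by omega, by omega,
        h2.trans (by rw [mul_comm 19 c, mul_assoc]; exact Nat.mul_le_mul_left c (by omega)), ?_⟩
      intro b x l hA
      rw [← mul_pow, Real.mul_self_sqrt hq]
      refine hR μ hμ hT b x l fun t ht => h3 b _ (hA t (by omega)).1 ?_
      have := (hA t (by omega)).2
      omega
  refine dirac_row μ hμ hT h1 fun x => ?_
  have h2 := rev_row μ hμ (true, x, 0) (fun _ => 1) 1 measurable_const (by simp)
  simp only [mul_one] at h2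
  rw [int_ind μ (meas_Av _ _), int_ind μ (meas_Av _ _), Measure.real, h1 x] at h2
  exact (measureReal_eq_zero_iff (measure_ne_top _ _)).1 (by simpa using h2.symm)

theorem main {μ : Measure Conf} (hμ : Gibbs μ) (hE : Ext μ) {e g : ℤ × ℤ} (he : |e.1| + |e.2| = 1)
    (hg : |g.1| + |g.2| = 1) (heg : e.1 * g.1 + e.2 * g.2 = 0) (c L : ℕ) {θ : ENNReal} (hθ : θ < 1)
    (H : ∀ n : ℕ, ∃ r w : ℕ, n ≤ r ∧ r ≤ c * w ∧ ∀ x : ℤ × ℤ, (r : ℤ) ≤ max |x.1| |x.2| →
      max |x.1| |x.2| ≤ r + w → μ {f | f (x + (L : ℤ) • e) - f x = L} ≤ θ ∧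
        μ {f | f (x + (L : ℤ) • g) - f x = L} ≤ θ) :
    ∃ (f₀ : Conf) (d : ℤ × ℤ), μ = Measure.dirac f₀ ∧ |d.1| + |d.2| = 1 ∧ ∀ u : ℤ × ℤ,
      Tendsto (fun n : ℕ => ((f₀ (u + (n : ℤ) • d) - f₀ u : ℤ) : ℝ) / (n : ℝ)) atTop (nhds 1) := by
  have := hμ.1
  have hg' : g = (-e.2, e.1) ∨ g = (e.2, -e.1) := by
    rcases unit_cases he with rfl | rfl | rfl | rfl <;>
      rcases unit_cases hg with rfl | rfl | rfl | rfl <;> simp at heg ⊢
  set φ := chart 0 e g he hg' with hφ'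
  have hφ : Iso φ := iso_chart 0 e g he hg'
  have g1 := gibbs_T hμ hφ (one_mul 1) 0
  have g2 := ext_T hE hφ (one_mul 1) 0
  have n1 : ∀ x, max |(φ x).1| |(φ x).2| = nrm x := by
    rintro ⟨a, b⟩
    rw [hφ', chart_apply]
    rcases unit_cases he with rfl | rfl | rfl | rfl <;> rcases hg' with rfl | rfl <;>
      simp [nrm, max_comm]
  have n2 : ∀ (x : ℤ × ℤ) (t : ℤ), φ (pt true x t) = φ x + t • e ∧ φ (pt false x t) = φ x + t • g := by
    rintro ⟨a, b⟩ t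
    simp only [hφ', pt_true, pt_false, chart_apply, add_smul]
    constructor <;> abel
  obtain ⟨f₁, h₁⟩ := dirac_axes g1 (fun S hS hi h => zero_one g1 g2 hS hi h) c L (θ := θ.toReal)
    (by simpa using (ENNReal.toReal_lt_toReal hθ.ne_top ENNReal.one_ne_top).2 hθ) fun n => by
      obtain ⟨r, w, h1, h2, h3⟩ := H n
      refine ⟨r, w, h1, h2, fun b x h4 h5 => ENNReal.toReal_mono hθ.ne_top ?_⟩
      rw [Measure.map_apply (meas_T φ 1 0) (measurableSet_setOfPred.2 (meas_eq _ _ _))]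
      have h6 := h3 (φ x) (by rwa [n1]) (by rwa [n1])
      cases b
      · refine le_trans (measure_mono fun f hf => ?_) h6.2
        simp only [Set.mem_preimage, Set.mem_ofPred_eq, T, (n2 x L).2] at hf ⊢
        omega
      · refine le_trans (measure_mono fun f hf => ?_) h6.1
        simp only [Set.mem_preimage, Set.mem_ofPred_eq, T, (n2 x L).1] at hf ⊢
        omega
  rw [ae_T μ φ (one_mul 1)] at h₁
  set f₀ := T φ.symm 1 (-(1 * 0)) f₁ with hf₀
  have h₀ : ∀ᵐ f ∂μ, f = f₀ := by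
    filter_upwards [h₁] with f hf
    rw [hf₀, ← hf, T_T φ (one_mul 1)]
  obtain ⟨d, hd, h⟩ := frozen hμ hE 0 (f₀ 0 - 1) (by
    filter_upwards [h₀] with f hf
    rw [hf]; omega)
  refine ⟨f₀, d, ?_, hd, fun u => ?_⟩
  · have h2 : μ.map id = μ.map fun _ => f₀ := Measure.map_congr h₀
    rwa [Measure.map_id, Measure.map_const, measure_univ, one_smul] at h2
  · obtain ⟨f, h2, h3⟩ := (h₀.and (h u)).exists
    rw [← h2]
    exact h3.2

end Pool.Agent.MP_151d89_pr.H30
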