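import Pool.Agent.MP_151d89_pr.H30.Spec

/-!
Basic facts on tower moves and reversibility.
-/

set_option autoImplicit false
open MeasureTheory Finset

namespace Pool.Agent.MP_151d89_pr.H30
open Pool.Agent.MP_151d89_pr.H82 Pool.Agent.MP_151d89_pr.H33 Pool.Agent.MP_151d89_pr.H67
open Classical

theorem pt_true (x : ℤ × ℤ) (t : ℤ) : pt true x t = (x.1 + t, x.2) := by
  ext <;> simp [pt, dir]

theorem pt_false (x : ℤ × ℤ) (t : ℤ) : pt false x t = (x.1, x.2 + t) := by
  ext <;> simp [pt, dir]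

theorem pt_zero (b : Bool) (x : ℤ × ℤ) : pt b x 0 = x := by simp [pt]

theorem mem_tow {m : Mv} {y : ℤ × ℤ} : y ∈ tow m ↔ ∃ t : ℕ, t ≤ m.2.2 ∧ pt m.1 m.2.1 t = y := by
  simp [tow]

theorem ind_mem (p : Prop) : 0 ≤ ind p ∧ ind p ≤ 1 := by
  unfold ind; split_ifs <;> simp

theorem ind_abs (p : Prop) : |ind p| ≤ 1 := by
  rw [abs_of_nonneg (ind_mem p).1]; exact (ind_mem p).2

theorem ind_pos {p : Prop} (h : p) : ind p = 1 := if_pos h

theorem ind_neg {p : Prop} (h : ¬ p) : ind p = 0 := if_neg h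

theorem meas_ind {p : Conf → Prop} (h : MeasurableSet {f | p f}) : Measurable fun f => ind (p f) :=
  Measurable.ite h measurable_const measurable_const

theorem int_ind (μ : Measure Conf) {p : Conf → Prop} (h : MeasurableSet {f | p f}) :
    ∫ f, ind (p f) ∂μ = μ.real {f | p f} := by
  rw [← integral_indicator_one h]
  refine integral_congr_ae (ae_of_all _ fun f => ?_)
  by_cases hp : p f <;> simp [ind, hp]

theorem meas_eq (x y : ℤ × ℤ) (c : ℤ) : Measurable fun f : Conf => f x = f y + c :=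
  measurableSet_setOfPred.1 (measurableSet_eq_fun (by fun_prop) (by fun_prop))

theorem meas_Run (b : Bool) (x : ℤ × ℤ) (l : ℕ) : MeasurableSet {f | Run b x l f} :=
  measurableSet_setOfPred.2 (Measurable.forall fun _ => Measurable.imp measurable_const
    (meas_eq _ _ _))

theorem meas_Av (s : ℤ) (m : Mv) : MeasurableSet {f | Av s m f} := by
  unfold Av
  simp only [add_assoc]
  exact measurableSet_setOfPred.2 ((measurableSet_setOfPred.1 (meas_Run _ _ _)).and
    ((meas_eq _ _ _).and ((meas_eq _ _ _).and (Measurable.forall fun _ =>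
      Measurable.imp measurable_const ((meas_eq _ _ _).and (meas_eq _ _ _))))))

theorem meas_Bad (r K : ℕ) : MeasurableSet {f | Bad r K f} :=
  measurableSet_setOfPred.2 (Measurable.exists fun _ => Measurable.exists fun _ =>
    measurable_const.and (measurableSet_setOfPred.1 (meas_Run _ _ _)))

theorem meas_dr (m : Mv) : Measurable (dr m) :=
  (meas_ind (meas_Av _ m)).sub (meas_ind (meas_Av _ m))

theorem meas_flip (m : Mv) : Measurable (flip m) := by
  refine measurable_pi_iff.2 fun y => ?_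
  unfold flip
  split_ifs <;> fun_prop

theorem dr_abs (m : Mv) (f : Conf) : |dr m f| ≤ ind (Run m.1 m.2.1 m.2.2 f) := by
  unfold dr
  by_cases h : Run m.1 m.2.1 m.2.2 f
  · rw [ind_pos h, abs_le]
    have h1 := ind_mem (Av (-1) m f)
    have h2 := ind_mem (Av 1 m f)
    constructor <;> linarith
  · rw [ind_neg h, ind_neg fun h' => h h'.1, ind_neg fun h' => h h'.1]
    simp

theorem dr_le (m : Mv) (f : Conf) : |dr m f| ≤ 1 := (dr_abs m f).trans (ind_mem _).2

theorem tow_in (m : Mv) {t : ℕ} (h : t ≤ m.2.2) : pt m.1 m.2.1 t ∈ tow m := mem_tow.2 ⟨t, h, rfl⟩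

theorem tow_start (m : Mv) : m.2.1 ∈ tow m := by
  have := tow_in m (Nat.zero_le _)
  rwa [Nat.cast_zero, pt_zero] at this

theorem tow_out (m : Mv) : pt m.1 m.2.1 (-1) ∉ tow m ∧ pt m.1 m.2.1 (m.2.2 + 1) ∉ tow m ∧
    ∀ t : ℤ, pt m.1 m.2.1 t + dir (!m.1) ∉ tow m ∧ pt m.1 m.2.1 t - dir (!m.1) ∉ tow m := by
  obtain ⟨b, x, l⟩ := m
  simp only [mem_tow]
  cases b <;> simp only [pt_true, pt_false, Bool.not_true, Bool.not_false, dir, Prod.ext_iff,
    Prod.fst_add, Prod.snd_add, Prod.fst_sub, Prod.snd_sub] <;>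
  refine ⟨?_, ?_, fun t => ⟨?_, ?_⟩⟩ <;> rintro ⟨u, h1, h2, h3⟩ <;> omega

theorem av_shift_iff (m : Mv) (s c : ℤ) {f g : Conf} (h1 : ∀ y ∈ tow m, g y = f y + c)
    (h2 : ∀ y, y ∉ tow m → g y = f y) (h : Av (s + c) m f) : Av s m g := by
  obtain ⟨o1, o2, o3⟩ := tow_out m
  have hs := h1 _ (tow_start m)
  obtain ⟨a1, a2, a3, a4⟩ := h
  refine ⟨fun t ht => ?_, ?_, ?_, fun t ht => ⟨?_, ?_⟩⟩
  · rw [h1 _ (tow_in m ht), hs, a1 t ht]; ring
  · rw [h2 _ o1, hs, a2]; ring
  · rw [h2 _ o2, hs, a3]; ring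
  · rw [h2 _ (o3 t).1, hs, (a4 t ht).1]; ring
  · rw [h2 _ (o3 t).2, hs, (a4 t ht).2]; ring

theorem nb_tow {s : ℤ} {m : Mv} {f : Conf} (h : Av s m f) {x y : ℤ × ℤ} (hx : x ∈ tow m)
    (hy : y ∉ tow m) (hxy : |x.1 - y.1| + |x.2 - y.2| = 1) : f y = f x + s := by
  obtain ⟨t, ht, rfl⟩ := mem_tow.1 hx
  obtain ⟨a1, a2, a3, a4⟩ := h
  rw [a1 t ht]
  have key : y = pt m.1 m.2.1 t + dir (!m.1) ∨ y = pt m.1 m.2.1 t - dir (!m.1) ∨
      y = pt m.1 m.2.1 (t + 1) ∨ y = pt m.1 m.2.1 (t - 1) := by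
    obtain ⟨b, x, l⟩ := m
    cases b <;> simp only [pt_true, pt_false, Bool.not_true, Bool.not_false, dir, Prod.ext_iff,
      Prod.fst_add, Prod.snd_add, Prod.fst_sub, Prod.snd_sub] at hxy ⊢ <;>
    simp only [Int.abs_eq_natAbs] at hxy <;> omega
  rcases key with rfl | rfl | rfl | rfl
  · exact (a4 t ht).1
  · exact (a4 t ht).2
  · have : t = m.2.2 := by
      by_contra hne
      exact hy (by exact_mod_cast tow_in m (t := t + 1) (by omega))
    subst this
    exact a3
  · have : t = 0 := by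
      by_contra hne
      obtain ⟨u, rfl⟩ := Nat.exists_eq_succ_of_ne_zero hne
      refine hy ?_
      have e : ((u.succ : ℕ) : ℤ) - 1 = u := by push_cast; ring
      rw [e]
      exact tow_in m (by omega)
    subst this
    simpa using a2

theorem hom_move {s : ℤ} (hs : s = 1 ∨ s = -1) {m : Mv} {f g : Conf} (hf : Hom f) (h : Av s m f)
    (h1 : ∀ y ∈ tow m, g y = f y + 2 * s) (h2 : ∀ y, y ∉ tow m → g y = f y) : Hom g := by
  intro x y hxy
  have h0 := hf x y hxy
  by_cases hx : x ∈ tow m <;> by_cases hy : y ∈ tow m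
  · rw [h1 x hx, h1 y hy]; simpa using h0
  · rw [h1 x hx, h2 y hy, nb_tow h hx hy hxy, abs_eq (by norm_num)]; omega
  · rw [h2 x hx, h1 y hy, nb_tow h hy hx (by rw [abs_sub_comm y.1, abs_sub_comm y.2]; exact hxy),
      abs_eq (by norm_num)]
    omega
  · rw [h2 x hx, h2 y hy]; exact h0

theorem flip_in {m : Mv} (f : Conf) {y : ℤ × ℤ} (h : y ∈ tow m) : flip m f y = f y - 2 := if_pos h

theorem flip_out {m : Mv} (f : Conf) {y : ℤ × ℤ} (h : y ∉ tow m) : flip m f y = f y := if_neg h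

theorem flip_le (m : Mv) (f : Conf) (y : ℤ × ℤ) : flip m f y ≤ f y := by
  unfold flip; split_ifs <;> omega

theorem hom_flip {m : Mv} {f : Conf} (hf : Hom f) (h : Av (-1) m f) : Hom (flip m f) :=
  hom_move (Or.inr rfl) hf h (fun y hy => by rw [flip_in f hy]; ring) fun y hy => flip_out f hy

theorem av_flip {m : Mv} {f : Conf} (h : Av (-1) m f) : Av 1 m (flip m f) :=
  av_shift_iff m 1 (-2) (fun y hy => by rw [flip_in f hy]; ring) (fun y hy => flip_out f hy)
    (by simpa using h)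

theorem rev_row : RevStmt := by
  intro μ hμ m G B hG hB
  have hb : ∀ (p : Prop) (f : Conf), |ind p * G f| ≤ 1 * B := fun p f =>
    abs_mul_le (ind_abs p) (hB f)
  rw [← int_av hμ (tow m) (φ := fun f => ind (Av (-1) m f) * G (flip m f))
      ((meas_ind (meas_Av _ m)).mul (hG.comp (meas_flip m))) fun f => hb _ _,
    ← int_av hμ (tow m) (φ := fun f => ind (Av 1 m f) * G f)
      ((meas_ind (meas_Av _ m)).mul hG) fun f => hb _ _]
  refine integral_congr_ae (ae_of_all _ fun g => ?_)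
  simp only [av]
  congr 1
  have e : ∀ (p : Conf → Prop) (H : Conf → ℝ), ∑ a ∈ FS (tow m) g, ind (p a) * H a =
      ∑ a ∈ (FS (tow m) g).filter p, H a := fun p H => by
    rw [sum_filter]
    exact sum_congr rfl fun a _ => by unfold ind; split_ifs <;> simp
  rw [e, e]
  refine sum_nbij' (flip m) (fun a y => if y ∈ tow m then a y + 2 else a y) ?_ ?_ ?_ ?_ ?_
  · intro a ha
    rw [mem_filter, mem_FS] at ha ⊢
    exact ⟨⟨hom_flip ha.1.1 ha.2, fun x hx => (flip_out a hx).trans (ha.1.2 x hx)⟩, av_flip ha.2⟩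
  · intro a ha
    rw [mem_filter, mem_FS] at ha ⊢
    refine ⟨⟨hom_move (Or.inl rfl) ha.1.1 ha.2 (fun y hy => by simp [hy]) fun y hy => by simp [hy],
      fun x hx => by simp [hx, ha.1.2 x hx]⟩, ?_⟩
    exact av_shift_iff m (-1) 2 (fun y hy => by simp [hy]) (fun y hy => by simp [hy]) ha.2
  · intro a _
    funext y
    by_cases hy : y ∈ tow m <;> simp [flip, hy]
  · intro a _
    funext y
    by_cases hy : y ∈ tow m <;> simp [flip, hy]
  · intro a _
    rfl

/-- the basic identity for the drift -/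
theorem int_dr {μ : Measure Conf} (hμ : Gibbs μ) (m : Mv) {G : Conf → ℝ} {B : ℝ}
    (hG : Measurable G) (hB : ∀ f, |G f| ≤ B) :
    ∫ f, dr m f * G f ∂μ = ∫ f, ind (Av (-1) m f) * (G f - G (flip m f)) ∂μ := by
  have := hμ.1
  have hb : ∀ (p : Prop) (f : Conf), |ind p * G f| ≤ 1 * B := fun p f =>
    abs_mul_le (ind_abs p) (hB f)
  have i1 : ∀ s, Integrable (fun f => ind (Av s m f) * G f) μ := fun s =>
    intg ((meas_ind (meas_Av _ m)).mul hG) fun f => hb _ _
  have i2 : Integrable (fun f => ind (Av (-1) m f) * G (flip m f)) μ :=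
    intg ((meas_ind (meas_Av _ m)).mul (hG.comp (meas_flip m))) fun f => hb _ _
  simp only [dr, sub_mul, mul_sub]
  rw [integral_sub (i1 _) (i1 _), integral_sub (i1 _) i2, rev_row μ hμ m G B hG hB]

/-- availability of a tower is a local property -/
theorem av_local' {s : ℤ} {m : Mv} {f g : Conf} (h : ∀ y ∈ box m.2.1 (m.2.2 + 1), f y = g y)
    (hf : Av s m f) : Av s m g := by
  obtain ⟨b, x, l⟩ := m
  have k1 : ∀ t : ℤ, -1 ≤ t → t ≤ l + 1 → g (pt b x t) = f (pt b x t) := fun t h1 h2 => by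
    refine (h _ ?_).symm
    cases b <;> simp only [mem_box, pt_true, pt_false] <;> push_cast <;> omega
  have k2 : ∀ t : ℤ, -1 ≤ t → t ≤ l + 1 → g (pt b x t + dir (!b)) = f (pt b x t + dir (!b)) ∧
      g (pt b x t - dir (!b)) = f (pt b x t - dir (!b)) := fun t h1 h2 => by
    constructor <;> refine (h _ ?_).symm <;> cases b <;>
      simp only [mem_box, pt_true, pt_false, Bool.not_true, Bool.not_false, dir,
        Prod.fst_add, Prod.snd_add, Prod.fst_sub, Prod.snd_sub] <;> push_cast <;> omega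
  have k0 : g x = f x := by simpa [pt_zero] using k1 0 (by omega) (by omega)
  obtain ⟨a1, a2, a3, a4⟩ := hf
  simp only at a1 a2 a3 a4
  refine ⟨fun t ht => ?_, ?_, ?_, fun t ht => ⟨?_, ?_⟩⟩ <;> simp only at *
  · rw [k1 t (by omega) (by omega), k0, a1 t ht]
  · rw [k1 _ (by omega) (by omega), k0, a2]
  · rw [k1 _ (by omega) (by omega), k0, a3]
  · rw [(k2 t (by omega) (by omega)).1, k0, (a4 t ht).1]
  · rw [(k2 t (by omega) (by omega)).2, k0, (a4 t ht).2]

theorem dr_local {m : Mv} {f g : Conf} (h : ∀ y ∈ box m.2.1 (m.2.2 + 1), f y = g y) :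
    dr m f = dr m g := by
  have e : ∀ s, Av s m f ↔ Av s m g := fun s =>
    ⟨av_local' h, av_local' fun y hy => (h y hy).symm⟩
  simp only [dr, e]

end Pool.Agent.MP_151d89_pr.H30
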