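import Pool.Agent.MP_151d89_pr.H67.FKG

/-!
A Mermin-Wagner argument with tower moves: definitions and the statements of the steps.
-/

set_option autoImplicit false
open MeasureTheory

namespace Pool.Agent.MP_151d89_pr.H30
open Pool.Agent.MP_151d89_pr.H82 Pool.Agent.MP_151d89_pr.H33 Pool.Agent.MP_151d89_pr.H67
open Classical

/-- the two axis directions -/
def dir : Bool → ℤ × ℤ
  | true => (1, 0)
  | false => (0, 1)

/-- the point at distance t from x in direction b -/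
def pt (b : Bool) (x : ℤ × ℤ) (t : ℤ) : ℤ × ℤ := x + t • dir b

/-- the supremum norm -/
def nrm (x : ℤ × ℤ) : ℤ := max |x.1| |x.2|

/-- tower moves: direction, starting point, number of edges -/
abbrev Mv : Type := Bool × (ℤ × ℤ) × ℕ

/-- f increases at each of the l steps from x in direction b -/
def Run (b : Bool) (x : ℤ × ℤ) (l : ℕ) (f : Conf) : Prop :=
  ∀ t : ℕ, t ≤ l → f (pt b x t) = f x + t

/-- the tower m can be moved down (s = -1) or up (s = 1) -/
def Av (s : ℤ) (m : Mv) (f : Conf) : Prop :=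
  Run m.1 m.2.1 m.2.2 f ∧ f (pt m.1 m.2.1 (-1)) = f m.2.1 + s ∧
    f (pt m.1 m.2.1 (m.2.2 + 1)) = f m.2.1 + m.2.2 + s ∧
    ∀ t : ℕ, t ≤ m.2.2 → f (pt m.1 m.2.1 t + dir (!m.1)) = f m.2.1 + t + s ∧
      f (pt m.1 m.2.1 t - dir (!m.1)) = f m.2.1 + t + s

/-- the sites of a tower -/
def tow (m : Mv) : Finset (ℤ × ℤ) := (Finset.range (m.2.2 + 1)).image fun t : ℕ => pt m.1 m.2.1 t

/-- moving a tower down -/
def flip (m : Mv) (f : Conf) : Conf := fun y => if y ∈ tow m then f y - 2 else f y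

/-- real indicator of a proposition -/
noncomputable def ind (p : Prop) : ℝ := if p then 1 else 0

/-- the drift of a tower -/
noncomputable def dr (m : Mv) (f : Conf) : ℝ := ind (Av (-1) m f) - ind (Av 1 m f)

/-- the towers used at radius r and width K: single sites are counted once, both ends lie in the
box of radius r + 9 K, and a tower is short or lies in the box of radius r + K -/
noncomputable def idx (r K : ℕ) : Finset Mv :=
  (Finset.univ ×ˢ box 0 (r + 9 * K) ×ˢ Finset.range (2 * r + 2 * K + 1)).filter fun m =>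
    (m.1 = true ∨ 1 ≤ m.2.2) ∧ nrm (pt m.1 m.2.1 m.2.2) ≤ r + 9 * K ∧
      (m.2.2 ≤ K ∨ (nrm m.2.1 ≤ r + K ∧ nrm (pt m.1 m.2.1 m.2.2) ≤ r + K))

/-- the segment lies in the annulus -/
def Ann (r K : ℕ) (b : Bool) (x : ℤ × ℤ) (l : ℕ) : Prop :=
  ∀ t : ℕ, t ≤ l → (r : ℤ) ≤ nrm (pt b x t) ∧ nrm (pt b x t) ≤ r + 10 * K

/-- there is a run of length K in the annulus -/
def Bad (r K : ℕ) (f : Conf) : Prop := ∃ b x, Ann r K b x K ∧ Run b x K f

/-- Row Run: exponential tails of runs -/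
def RunStmt : Prop :=
  ∀ (L : ℕ) (θ : ℝ), θ < 1 → ∃ C q : ℝ, 0 ≤ C ∧ 0 ≤ q ∧ q < 1 ∧
    ∀ μ : Measure Conf, Gibbs μ → Triv μ → ∀ (b : Bool) (x : ℤ × ℤ) (l : ℕ),
      (∀ t : ℕ, t + L ≤ l → μ.real {f | f (pt b (pt b x t) L) = f (pt b x t) + L} ≤ θ) →
      μ.real {f | Run b x l f} ≤ C * q ^ l

/-- Row Null: the total drift is a null Lagrangian -/
def NullStmt : Prop :=
  ∀ r K : ℕ, 1 ≤ K → ∀ f g : Conf, Hom f → Hom g → (∀ y, y ∉ box 0 (r + 5 * K) → f y = g y) →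
    ¬ Bad r K f → ¬ Bad r K g → ∑ m ∈ idx r K, dr m f = ∑ m ∈ idx r K, dr m g

/-- Row Dirac: without single site moves the measure is a point mass -/
def DiracStmt : Prop :=
  ∀ μ : Measure Conf, Gibbs μ → Triv μ → (∀ x, μ {f | Av (-1) (true, x, 0) f} = 0) →
    (∀ x, μ {f | Av 1 (true, x, 0) f} = 0) → ∃ f₀ : Conf, ∀ᵐ f ∂μ, f = f₀

/-- Row Rev: reversibility -/
def RevStmt : Prop :=
  ∀ μ : Measure Conf, Gibbs μ → ∀ (m : Mv) (G : Conf → ℝ) (B : ℝ), Measurable G →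
    (∀ f, |G f| ≤ B) →
      ∫ f, ind (Av (-1) m f) * G (flip m f) ∂μ = ∫ f, ind (Av 1 m f) * G f ∂μ

end Pool.Agent.MP_151d89_pr.H30
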